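import Pool.Agent.Helper79.TL.Chains

/-!
# TL: large tree-like parts contain chains
-/

set_option autoImplicit false

namespace Pool.Agent.Helper79.TL

variable {V : Type}

lemma exists_inj [Finite V] {s : Set V} {N : ℕ} (h : N < s.ncard) :
    ∃ c : Fin (N + 1) → V, Function.Injective c ∧ ∀ i, c i ∈ s := by
  classical
  have hfin : s.Finite := Set.toFinite s
  rw [Set.ncard_eq_toFinset_card s hfin] at h
  obtain ⟨t, ht, htc⟩ := Finset.exists_subset_card_eq (n := N + 1) h
  let e := t.equivFinOfCardEq htc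
  refine ⟨fun i => (e.symm i).1, ?_, ?_⟩
  · intro i j hij
    exact e.symm.injective (Subtype.ext hij)
  · intro i
    have h1 := ht (e.symm i).2
    rwa [Set.Finite.mem_toFinset] at h1

lemma ncard_iUnion_le [Finite V] {s : Set V} {f : V → Set V} {a B : ℕ} (hs : s.ncard ≤ a)
    (hf : ∀ x ∈ s, (f x).ncard ≤ B) : (⋃ x ∈ s, f x).ncard ≤ a * B := by
  classical
  haveI := Fintype.ofFinite V
  have h1 : (⋃ x ∈ s, f x) = ↑(s.toFinset.biUnion fun x => (f x).toFinset) := by
    ext y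
    simp
  rw [h1, Set.ncard_coe_finset]
  refine (Finset.card_biUnion_le_card_mul _ _ B ?_).trans ?_
  · intro x hx
    have := hf x (by simpa using hx)
    rwa [Set.ncard_eq_toFinset_card'] at this
  · refine Nat.mul_le_mul_right B ?_
    rwa [Set.ncard_eq_toFinset_card'] at hs

variable {G : SimpleGraph V} {X : Set V} {ρ : V → ℕ}

/-- a descending sequence of length `m` below `v` -/
def Dp (G : SimpleGraph V) (X : Set V) (ρ : V → ℕ) (m : ℕ) (v : V) : Prop :=
  ∃ f : ℕ → V, f m = v ∧ ∀ j, j < m → Par (meet G X) ρ (f j) (f (j + 1))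

lemma Dp.succ {m : ℕ} {c v : V} (h : Dp G X ρ m c) (hp : Par (meet G X) ρ c v) :
    Dp G X ρ (m + 1) v := by
  obtain ⟨f, hf, hj⟩ := h
  refine ⟨fun j => if j ≤ m then f j else v, by simp, ?_⟩
  intro j hjm
  have h1 : j ≤ m := by omega
  simp only [h1, if_true]
  by_cases h2 : j + 1 ≤ m
  · rw [if_pos h2]
    exact hj j (by omega)
  · rw [if_neg h2]
    have : j = m := by omega
    rw [this, hf]
    exact hp

lemma low_eq (hρ : Function.Injective ρ) (v : V) : low (meet G X) ρ v ⊆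
    {v} ∪ ⋃ c ∈ {c | Par (meet G X) ρ c v}, low (meet G X) ρ c := by
  intro u hu
  by_cases h : u = v
  · exact Or.inl h
  · right
    obtain ⟨c, hc, huc⟩ := exists_child hρ hu h
    simp only [Set.mem_iUnion]
    exact ⟨c, hc, huc⟩

/-- clean branches without long descending sequences are small -/
lemma card_low [Finite V] (hρ : Function.Injective ρ) {N : ℕ}
    (hch : ∀ v, {c | Par (meet G X) ρ c v ∧ low (meet G X) ρ c ⊆ X}.ncard ≤ N) :
    ∀ (m : ℕ) (v : V), low (meet G X) ρ v ⊆ X → ¬ Dp G X ρ m v →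
      (low (meet G X) ρ v).ncard ≤ (N + 1) ^ m := by
  intro m
  induction m with
  | zero =>
    intro v _ h
    exact absurd ⟨fun _ => v, rfl, fun j hj => absurd hj (Nat.not_lt_zero j)⟩ h
  | succ m ih =>
    intro v hv hd
    have h1 : {c | Par (meet G X) ρ c v}.ncard ≤ N := by
      refine le_trans (Set.ncard_le_ncard ?_ (Set.toFinite _)) (hch v)
      intro c hc
      exact ⟨hc, (child_subset hc).trans hv⟩
    have h2 : (⋃ c ∈ {c | Par (meet G X) ρ c v}, low (meet G X) ρ c).ncard ≤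
        N * (N + 1) ^ m := by
      refine ncard_iUnion_le h1 ?_
      intro c hc
      refine ih c ((child_subset hc).trans hv) ?_
      intro h3
      exact hd (h3.succ hc)
    have h3 := Set.ncard_le_ncard (low_eq (G := G) (X := X) hρ v) (Set.toFinite _)
    have h4 := Set.ncard_union_le {v}
      (⋃ c ∈ {c | Par (meet G X) ρ c v}, low (meet G X) ρ c)
    rw [Set.ncard_singleton] at h4
    have h5 : 1 ≤ (N + 1) ^ m := Nat.one_le_pow _ _ (Nat.succ_pos N)
    calc (low (meet G X) ρ v).ncard ≤ 1 + N * (N + 1) ^ m := by omega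
      _ ≤ (N + 1) ^ m + N * (N + 1) ^ m := by omega
      _ = (N + 1) ^ (m + 1) := by ring

/-- the points outside `X` adjacent to `X` -/
def bdry (G : SimpleGraph V) (X : Set V) : Set V := {w | w ∉ X ∧ ∃ u ∈ X, G.Adj u w}

lemma low_sub {v : V} (hv : v ∈ X ∪ bdry G X) :
    low (meet G X) ρ v ⊆ X ∪ bdry G X := by
  intro u hu
  unfold low at hu
  simp only [Set.mem_ofPred_eq] at hu
  induction hu with
  | refl => exact hv
  | @tail b c hb hc ih =>
    by_cases hcX : c ∈ X
    · exact Or.inl hcX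
    · right
      have h1 : b ∈ X := hc.1.2.resolve_right hcX
      exact ⟨hcX, b, h1, hc.1.1⟩

lemma high_sub {v w : V} (hv : v ∈ X ∪ bdry G X) (hw : w ∈ high (meet G X) ρ v) :
    w ∈ X ∪ bdry G X := by
  obtain ⟨u, hu, huw⟩ := hw.2
  by_cases hwX : w ∈ X
  · exact Or.inl hwX
  · right
    exact ⟨hwX, u, huw.2.resolve_right hwX, huw.1⟩

/-- the points with a boundary point below -/
def KK (G : SimpleGraph V) (X : Set V) (ρ : V → ℕ) : Set V :=
  {v | v ∈ X ∪ bdry G X ∧ ∃ s ∈ bdry G X, s ∈ low (meet G X) ρ v}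

lemma clean_of_not {v : V} (hv : v ∈ X ∪ bdry G X) (h : v ∉ KK G X ρ) :
    low (meet G X) ρ v ⊆ X := by
  intro u hu
  rcases low_sub hv hu with h1 | h1
  · exact h1
  · exact absurd ⟨hv, u, h1, hu⟩ h

lemma KK_par {v w : V} (hv : v ∈ KK G X ρ) (h : Par (meet G X) ρ v w) : w ∈ KK G X ρ := by
  obtain ⟨h1, s, hs, hsv⟩ := hv
  exact ⟨high_sub h1 h.1, s, hs, child_subset h hsv⟩

lemma KK_child (hρ : Function.Injective ρ) {v : V} (hv : v ∈ KK G X ρ) (hS : v ∉ bdry G X) :
    ∃ c ∈ KK G X ρ, Par (meet G X) ρ c v := by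
  obtain ⟨h1, s, hs, hsv⟩ := hv
  have hne : s ≠ v := fun h => hS (h ▸ hs)
  obtain ⟨c, hc, hsc⟩ := exists_child hρ hsv hne
  exact ⟨c, ⟨low_sub h1 (mem_low_par hc), s, hs, hsc⟩, hc⟩

/-- branching points -/
def BB (G : SimpleGraph V) (X : Set V) (ρ : V → ℕ) : Set V :=
  {v | v ∈ KK G X ρ ∧ 2 ≤ {c | c ∈ KK G X ρ ∧ Par (meet G X) ρ c v}.ncard}

lemma card_BB [Finite V] (hρ : Function.Injective ρ) : (BB G X ρ).ncard ≤ (bdry G X).ncard := by
  classical
  haveI := Fintype.ofFinite V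
  let K : Finset V := (KK G X ρ).toFinset
  let ch : V → ℕ := fun v => (K.filter fun c => Par (meet G X) ρ c v).card
  have hch : ∀ v, {c | c ∈ KK G X ρ ∧ Par (meet G X) ρ c v}.ncard = ch v := by
    intro v
    rw [Set.ncard_eq_toFinset_card']
    congr 1
    ext c
    simp [K]
  have h1 : ∑ v ∈ K, ch v ≤ K.card := by
    have e1 : ∑ v ∈ K, ch v = ∑ c ∈ K, (K.filter fun v => Par (meet G X) ρ c v).card := by
      have := Finset.sum_card_bipartiteAbove_eq_sum_card_bipartiteBelow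
        (s := K) (t := K) (fun v c => Par (meet G X) ρ c v)
      exact this
    rw [e1, Finset.card_eq_sum_ones]
    refine Finset.sum_le_sum fun c _ => ?_
    rw [Finset.card_le_one]
    intro a ha b hb
    exact par_unique hρ (Finset.mem_filter.1 ha).2 (Finset.mem_filter.1 hb).2
  have h2 : ∀ v ∈ K, 1 + (if 2 ≤ ch v then 1 else 0) ≤
      ch v + (if v ∈ bdry G X then 1 else 0) := by
    intro v hv
    have hvK : v ∈ KK G X ρ := by simpa [K] using hv
    by_cases hS : v ∈ bdry G X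
    · rw [if_pos hS]
      split_ifs with h3
      · omega
      · omega
    · rw [if_neg hS]
      have h4 : 1 ≤ ch v := by
        obtain ⟨c, hc, hcv⟩ := KK_child hρ hvK hS
        refine Finset.card_pos.2 ⟨c, Finset.mem_filter.2 ⟨by simpa [K] using hc, hcv⟩⟩
      split_ifs with h3
      · omega
      · omega
  have h3 := Finset.sum_le_sum h2
  rw [Finset.sum_add_distrib, Finset.sum_add_distrib, ← Finset.card_eq_sum_ones,
    ← Finset.card_filter, ← Finset.card_filter] at h3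
  have h4 : (K.filter fun v => v ∈ bdry G X).card ≤ (bdry G X).ncard := by
    rw [Set.ncard_eq_toFinset_card']
    refine Finset.card_le_card ?_
    intro v hv
    simpa using (Finset.mem_filter.1 hv).2
  have h5 : (BB G X ρ).ncard = (K.filter fun v => 2 ≤ ch v).card := by
    rw [Set.ncard_eq_toFinset_card']
    congr 1
    ext v
    simp only [BB, Set.mem_toFinset, Set.mem_ofPred_eq, Finset.mem_filter, K, hch]
  omega

/-- `v` is the `j`-th ancestor of `z` -/
def Anc (G : SimpleGraph V) (X : Set V) (ρ : V → ℕ) : ℕ → V → V → Prop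
  | 0, z, v => z = v
  | j + 1, z, v => ∃ c, Anc G X ρ j z c ∧ Par (meet G X) ρ c v

lemma anc_unique (hρ : Function.Injective ρ) : ∀ (j : ℕ) (z v v' : V), Anc G X ρ j z v →
    Anc G X ρ j z v' → v = v' := by
  intro j
  induction j with
  | zero =>
    intro z v v' h h'
    exact (show z = v from h).symm.trans h'
  | succ j ih =>
    rintro z v v' ⟨c, hc, hcv⟩ ⟨c', hc', hcv'⟩
    rw [ih z c c' hc hc'] at hcv
    exact par_unique hρ hcv hcv'

/-- a thread of length `m` ending at `v` -/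
def Thr (G : SimpleGraph V) (X : Set V) (ρ : V → ℕ) (m : ℕ) (v : V) : Prop :=
  ∃ f : ℕ → V, f m = v ∧ f 0 ∈ KK G X ρ ∧
    ∀ j, j < m → Par (meet G X) ρ (f j) (f (j + 1)) ∧ f (j + 1) ∈ KK G X ρ ∧
      f (j + 1) ∉ bdry G X ∧ f (j + 1) ∉ BB G X ρ

lemma thr_or (hρ : Function.Injective ρ) : ∀ (m : ℕ) (v : V), v ∈ KK G X ρ →
    Thr G X ρ m v ∨ ∃ z ∈ bdry G X ∪ BB G X ρ, ∃ j, j < m ∧ Anc G X ρ j z v := by
  intro m
  induction m with
  | zero =>
    intro v hv
    exact Or.inl ⟨fun _ => v, rfl, hv, fun j hj => absurd hj (Nat.not_lt_zero j)⟩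
  | succ m ih =>
    intro v hv
    by_cases hs : v ∈ bdry G X ∪ BB G X ρ
    · exact Or.inr ⟨v, hs, 0, Nat.succ_pos m, rfl⟩
    · have h1 : v ∉ bdry G X := fun h => hs (Or.inl h)
      have h2 : v ∉ BB G X ρ := fun h => hs (Or.inr h)
      obtain ⟨c, hc, hcv⟩ := KK_child hρ hv h1
      rcases ih c hc with ⟨f, hf, hf0, hfj⟩ | ⟨z, hz, j, hj, hzj⟩
      · left
        refine ⟨fun j => if j ≤ m then f j else v, by simp, by simpa using hf0, ?_⟩
        intro j hjm
        have h3 : j ≤ m := by omega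
        simp only [h3, if_true]
        by_cases h4 : j + 1 ≤ m
        · rw [if_pos h4]
          exact hfj j (by omega)
        · rw [if_neg h4]
          have : j = m := by omega
          rw [this, hf]
          exact ⟨hcv, hv, h1, h2⟩
      · right
        exact ⟨z, hz, j + 1, by omega, c, hzj, hcv⟩

lemma thr_clean [Finite V] (hρ : Function.Injective ρ) {m : ℕ} {f : ℕ → V}
    (hf0 : f 0 ∈ KK G X ρ)
    (hf : ∀ j, j < m → Par (meet G X) ρ (f j) (f (j + 1)) ∧ f (j + 1) ∈ KK G X ρ ∧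
      f (j + 1) ∉ bdry G X ∧ f (j + 1) ∉ BB G X ρ) :
    ∀ j, j ≤ m → f j ∈ KK G X ρ ∧
      low (meet G X) ρ (f j) \ low (meet G X) ρ (f 0) ⊆ X := by
  intro j
  induction j with
  | zero =>
    intro _
    exact ⟨hf0, fun u hu => absurd hu.1 hu.2⟩
  | succ j ih =>
    intro hj
    obtain ⟨h1, h2⟩ := ih (by omega)
    obtain ⟨h3, h4, h5, h6⟩ := hf j (by omega)
    refine ⟨h4, ?_⟩
    rintro u ⟨hu, hu0⟩
    by_cases hne : u = f (j + 1)
    · rw [hne]
      exact h4.1.resolve_right h5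
    · obtain ⟨c, hc, huc⟩ := exists_child hρ hu hne
      by_cases hcf : c = f j
      · rw [hcf] at huc
        exact h2 ⟨huc, hu0⟩
      · have hcV : c ∈ X ∪ bdry G X := low_sub h4.1 (mem_low_par hc)
        have hcK : c ∉ KK G X ρ := by
          intro hcK
          apply h6
          refine ⟨h4, ?_⟩
          have h7 : ({c, f j} : Set V) ⊆ {c | c ∈ KK G X ρ ∧
              Par (meet G X) ρ c (f (j + 1))} := by
            intro d hd
            rcases hd with rfl | hd
            · exact ⟨hcK, hc⟩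
            · rw [Set.mem_singleton_iff] at hd
              rw [hd]
              exact ⟨h1, h3⟩
          have h8 := Set.ncard_le_ncard h7 (Set.toFinite _)
          rwa [Set.ncard_pair hcf] at h8
        exact clean_of_not hcV hcK huc

/-- the number of points with a boundary point below -/
lemma card_KK [Finite V] (hρ : Function.Injective ρ) {m : ℕ} (hno : ∀ v, ¬ Thr G X ρ m v) :
    (KK G X ρ).ncard ≤ 2 * (bdry G X).ncard * m := by
  classical
  have h1 : KK G X ρ ⊆ ⋃ z ∈ bdry G X ∪ BB G X ρ, {v | ∃ j, j < m ∧ Anc G X ρ j z v} := by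
    intro v hv
    rcases thr_or hρ m v hv with h | ⟨z, hz, j, hj, hzj⟩
    · exact absurd h (hno v)
    · simp only [Set.mem_iUnion]
      exact ⟨z, hz, j, hj, hzj⟩
  have h2 : (bdry G X ∪ BB G X ρ).ncard ≤ 2 * (bdry G X).ncard := by
    have h3 := Set.ncard_union_le (bdry G X) (BB G X ρ)
    have h4 := card_BB (G := G) (X := X) hρ
    omega
  have h3 : ∀ z ∈ bdry G X ∪ BB G X ρ, {v | ∃ j, j < m ∧ Anc G X ρ j z v}.ncard ≤ m := by
    intro z _
    by_cases he : {v | ∃ j, j < m ∧ Anc G X ρ j z v} = ∅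
    · rw [he, Set.ncard_empty]
      exact Nat.zero_le _
    · obtain ⟨v0, -⟩ := Set.nonempty_iff_ne_empty.2 he
      have h4 : {v | ∃ j, j < m ∧ Anc G X ρ j z v} ⊆
          (fun j : ℕ => if h : ∃ v, Anc G X ρ j z v then h.choose else v0) '' ↑(Finset.range m) := by
        rintro v ⟨j, hj, hjv⟩
        refine ⟨j, by simpa using hj, ?_⟩
        have hex : ∃ v, Anc G X ρ j z v := ⟨v, hjv⟩
        simp only [dif_pos hex]
        exact anc_unique hρ j z _ _ hex.choose_spec hjv
      refine (Set.ncard_le_ncard h4 (Set.toFinite _)).trans ?_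
      refine (Set.ncard_image_le (Set.toFinite _)).trans ?_
      rw [Set.ncard_coe_finset, Finset.card_range]
  exact (Set.ncard_le_ncard h1 (Set.toFinite _)).trans (ncard_iUnion_le h2 h3)

lemma cover [Finite V] (hρ : Function.Injective ρ) (x : V) (hx : x ∈ X ∪ bdry G X) :
    x ∈ KK G X ρ ∨
      (∃ r, high (meet G X) ρ r = ∅ ∧ low (meet G X) ρ r ⊆ X ∧ x ∈ low (meet G X) ρ r) ∨
      (∃ w ∈ KK G X ρ, ∃ c, Par (meet G X) ρ c w ∧ low (meet G X) ρ c ⊆ X ∧
        x ∈ low (meet G X) ρ c) := by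
  obtain ⟨B, hB⟩ : ∃ B, ∀ v, ρ v ≤ B := by
    obtain ⟨B, hB⟩ := (Set.finite_range ρ).bddAbove
    exact ⟨B, fun v => hB ⟨v, rfl⟩⟩
  have key : ∀ n : ℕ, ∀ x : V, B - ρ x = n → x ∈ X ∪ bdry G X → x ∈ KK G X ρ ∨
      (∃ r, high (meet G X) ρ r = ∅ ∧ low (meet G X) ρ r ⊆ X ∧ x ∈ low (meet G X) ρ r) ∨
      (∃ w ∈ KK G X ρ, ∃ c, Par (meet G X) ρ c w ∧ low (meet G X) ρ c ⊆ X ∧
        x ∈ low (meet G X) ρ c) := by
    intro n
    induction n using Nat.strong_induction_on with
    | _ n ih =>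
      intro x hn hx
      by_cases hK : x ∈ KK G X ρ
      · exact Or.inl hK
      · have hcl := clean_of_not hx hK
        by_cases hQ : high (meet G X) ρ x = ∅
        · exact Or.inr (Or.inl ⟨x, hQ, hcl, mem_low_self x⟩)
        · obtain ⟨w, hw⟩ := exists_par (Set.nonempty_iff_ne_empty.2 hQ)
          have hwV := high_sub hx hw.1
          have h1 := par_lt hw
          have h2 := hB w
          rcases ih (B - ρ w) (by omega) w rfl hwV with h | ⟨r, hr1, hr2, hr3⟩ |
            ⟨w', hw', c, hc1, hc2, hc3⟩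
          · exact Or.inr (Or.inr ⟨w, h, x, hw, hcl, mem_low_self x⟩)
          · exact Or.inr (Or.inl ⟨r, hr1, hr2, low_trans hr3 (mem_low_par hw)⟩)
          · exact Or.inr (Or.inr ⟨w', hw', c, hc1, hc2, low_trans hc3 (mem_low_par hw)⟩)
  exact key _ x rfl hx

/-- **A large set with few outside neighbours and tree-like edges contains a chain.** -/
theorem exists_chain (k N : ℕ) : ∃ C : ℕ, ∀ (V : Type) [Finite V] (G : SimpleGraph V)
    (X : Set V), TreeWidthLE k (meet G X) → C * ((bdry G X).ncard + 1) < X.ncard →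
      Chain G (2 * k + 1) N := by
  refine ⟨2 * ((2 * k + 1) * N) * (1 + N * (N + 1) ^ ((k + 1) * N)) +
    N * (N + 1) ^ ((k + 1) * N), ?_⟩
  intro V _ G X hT hC
  obtain ⟨ρ, hρ, hk⟩ := hT
  by_contra hno
  have hch : ∀ v, {c | Par (meet G X) ρ c v ∧ low (meet G X) ρ c ⊆ X}.ncard ≤ N := by
    intro v
    by_contra h
    obtain ⟨c, hc, hcs⟩ := exists_inj (not_le.1 h)
    exact hno ((chain_children hρ hk c hc (fun i => (hcs i).1) (fun i => (hcs i).2)).mono
      (by omega))
  have hroots : {r | high (meet G X) ρ r = ∅ ∧ low (meet G X) ρ r ⊆ X}.ncard ≤ N := by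
    by_contra h
    obtain ⟨c, hc, hcs⟩ := exists_inj (not_le.1 h)
    exact hno ((chain_roots hρ c hc (fun i => (hcs i).1) (fun i => (hcs i).2)).mono
      (by omega))
  have hsmall : ∀ v, low (meet G X) ρ v ⊆ X →
      (low (meet G X) ρ v).ncard ≤ (N + 1) ^ ((k + 1) * N) := by
    intro v hv
    refine card_low hρ hch _ v hv ?_
    rintro ⟨f, hf, hj⟩
    rw [← hf] at hv
    exact hno ((chain_branch hρ hk f hj hv le_rfl).mono (by omega))
  have hthr : ∀ v, ¬ Thr G X ρ ((2 * k + 1) * N) v := by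
    rintro v ⟨f, hf, hf0, hfj⟩
    have h1 := (thr_clean hρ hf0 hfj _ le_rfl).2
    exact hno ((chain_thread hρ hk f (fun j hj => (hfj j hj).1) h1 le_rfl).mono (by omega))
  have hK := card_KK hρ hthr
  have hcov : X ⊆ KK G X ρ ∪
      ((⋃ r ∈ {r | high (meet G X) ρ r = ∅ ∧ low (meet G X) ρ r ⊆ X}, low (meet G X) ρ r) ∪
      (⋃ w ∈ KK G X ρ, ⋃ c ∈ {c | Par (meet G X) ρ c w ∧ low (meet G X) ρ c ⊆ X},
        low (meet G X) ρ c)) := by
    intro x hx
    rcases cover hρ x (Or.inl hx) with h | ⟨r, hr1, hr2, hr3⟩ | ⟨w, hw, c, hc1, hc2, hc3⟩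
    · exact Or.inl h
    · right; left
      simp only [Set.mem_iUnion]
      exact ⟨r, ⟨hr1, hr2⟩, hr3⟩
    · right; right
      simp only [Set.mem_iUnion]
      exact ⟨w, hw, c, ⟨hc1, hc2⟩, hc3⟩
  have h1 : (⋃ r ∈ {r | high (meet G X) ρ r = ∅ ∧ low (meet G X) ρ r ⊆ X},
      low (meet G X) ρ r).ncard ≤ N * (N + 1) ^ ((k + 1) * N) :=
    ncard_iUnion_le hroots fun r hr => hsmall r hr.2
  have h2 : (⋃ w ∈ KK G X ρ, ⋃ c ∈ {c | Par (meet G X) ρ c w ∧ low (meet G X) ρ c ⊆ X},
      low (meet G X) ρ c).ncard ≤ (2 * (bdry G X).ncard * ((2 * k + 1) * N)) *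
        (N * (N + 1) ^ ((k + 1) * N)) := by
    refine ncard_iUnion_le hK fun w _ => ?_
    exact ncard_iUnion_le (hch w) fun c hc => hsmall c hc.2
  have h3 := Set.ncard_le_ncard hcov (Set.toFinite _)
  have h4 := Set.ncard_union_le (KK G X ρ)
      ((⋃ r ∈ {r | high (meet G X) ρ r = ∅ ∧ low (meet G X) ρ r ⊆ X}, low (meet G X) ρ r) ∪
      (⋃ w ∈ KK G X ρ, ⋃ c ∈ {c | Par (meet G X) ρ c w ∧ low (meet G X) ρ c ⊆ X},
        low (meet G X) ρ c))
  have h5 := Set.ncard_union_le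
      (⋃ r ∈ {r | high (meet G X) ρ r = ∅ ∧ low (meet G X) ρ r ⊆ X}, low (meet G X) ρ r)
      (⋃ w ∈ KK G X ρ, ⋃ c ∈ {c | Par (meet G X) ρ c w ∧ low (meet G X) ρ c ⊆ X},
        low (meet G X) ρ c)
  generalize hs : (bdry G X).ncard = s at *
  generalize hT0 : N * (N + 1) ^ ((k + 1) * N) = T at *
  generalize hM : (2 * k + 1) * N = M at *
  have h6 : X.ncard ≤ 2 * s * M + (T + 2 * s * M * T) := by omega
  have h7 : 2 * s * M + (T + 2 * s * M * T) ≤ (2 * M * (1 + T) + T) * (s + 1) := by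
    nlinarith [Nat.zero_le (s * T), Nat.zero_le (M * T), Nat.zero_le M]
  omega

end Pool.Agent.Helper79.TL
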