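import Pool.Agent.Helper32.PumpLang
import Pool.Agent.Helper79.TL.Count

/-!
# TL: Gaifman graphs and pumping
-/

set_option autoImplicit false

namespace Pool.Agent.Helper79.TL

open FirstOrder FirstOrder.Language Pool.Agent.Helper32.Pump

/-- The Gaifman graph: different points are adjacent if they occur together in a tuple of a relation. -/
def gaifman (L : FirstOrder.Language.{0, 0}) (M : Type) [L.Structure M] : SimpleGraph M where
  Adj u v := u ≠ v ∧ ∃ (n : ℕ) (R : L.Relations n) (x : Fin n → M),
    Structure.RelMap R x ∧ u ∈ Set.range x ∧ v ∈ Set.range x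
  symm := ⟨fun _ _ h => ⟨h.1.symm, h.2.choose, h.2.choose_spec.choose,
    h.2.choose_spec.choose_spec.choose, h.2.choose_spec.choose_spec.choose_spec.1,
    h.2.choose_spec.choose_spec.choose_spec.2.2, h.2.choose_spec.choose_spec.choose_spec.2.1⟩⟩
  loopless := ⟨fun _ h => h.1 rfl⟩

variable {L : FirstOrder.Language.{0, 0}}

lemma cutIndex_of_cut {M : Type} [L.Structure M] [Finite M] {b : ℕ} {U : Set M}
    (h : Cut (gaifman L M) b U) : CutIndexLE L M (b + 1) U := by
  classical
  let B : Set M := {u | u ∈ U ∧ ∃ w, w ∉ U ∧ (gaifman L M).Adj u w}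
  have hB : Nat.card B ≤ b := h
  obtain ⟨e⟩ : Nonempty (B ↪ Fin b) := by
    haveI := Fintype.ofFinite B
    rw [Function.Embedding.nonempty_iff_card_le]
    rw [Nat.card_eq_fintype_card] at hB
    simpa using hB
  refine ⟨fun u => if hu : u ∈ B then (e ⟨u, hu⟩).castSucc else Fin.last b, ?_⟩
  have key : ∀ u ∈ U, u ∉ B → ∀ (n : ℕ) (R : L.Relations n) (x : Fin n → M) (i j : Fin n),
      i ≠ j → x j ∉ U → ¬ Structure.RelMap R (Function.update x i u) := by
    intro u hu huB n R x i j hij hj hR
    apply huB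
    refine ⟨hu, x j, hj, fun he => hj (he ▸ hu), n, R, Function.update x i u, hR, ⟨i, ?_⟩, ⟨j, ?_⟩⟩
    · rw [Function.update_self]
    · rw [Function.update_of_ne hij.symm]
  intro u hu u' hu' hc n R x i j hij hj
  by_cases h1 : u ∈ B
  · by_cases h2 : u' ∈ B
    · simp only [dif_pos h1, dif_pos h2] at hc
      have h3 := e.injective (Fin.castSucc_injective b hc)
      have h4 : u = u' := congrArg Subtype.val h3
      rw [h4]
    · simp only [dif_pos h1, dif_neg h2] at hc
      exact absurd hc (Fin.castSucc_lt_last _).ne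
  · by_cases h2 : u' ∈ B
    · simp only [dif_neg h1, dif_pos h2] at hc
      exact absurd hc.symm (Fin.castSucc_lt_last _).ne
    · exact ⟨fun h => absurd h (key u hu h1 n R x i j hij hj),
        fun h => absurd h (key u' hu' h2 n R x i j hij hj)⟩

lemma hasCutChain_of_chain {M : Type} [L.Structure M] [Finite M] {b N : ℕ}
    (h : Chain (gaifman L M) b N) : HasCutChain L M (b + 1) N := by
  obtain ⟨U, h1, h2⟩ := h
  exact ⟨U, h1, fun i => cutIndex_of_cut (h2 i)⟩

/-- pumping structures with chains of sets with few boundary points -/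
theorem pump_chain (hL : ∀ n, IsEmpty (L.Functions n)) (hf : Finite (Σ n, L.Relations n))
    (φ : L.Sentence) (b : ℕ) : ∃ N p : ℕ, 0 < p ∧ ∀ (M : Type) [L.Structure M] [Finite M],
      Chain (gaifman L M) b N → φ.Realize M → ∀ j : ℕ, ∃ (M' : Type) (_ : L.Structure M'),
        Finite M' ∧ Nat.card M' = Nat.card M + j * p ∧ φ.Realize M' := by
  obtain ⟨N, p, hp, h⟩ := pump_sentence hL hf φ (b + 1)
  exact ⟨N, p, hp, fun M _ _ hc hφ j => h M (hasCutChain_of_chain hc) hφ j⟩

end Pool.Agent.Helper79.TL
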