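import Pool.Agent.Helper79.TL.Cyc
import Pool.Agent.Helper6.ED.EncLang
import Pool.Agent.Helper6.ED.EncCount

/-!
# TL: encoded structures are thin
-/

set_option autoImplicit false

namespace Pool.Agent.Helper79.TL

open FirstOrder FirstOrder.Language Pool.Agent.Helper6.ED Pool.Agent.Helper6.ED.EncCount

variable {s : Kn} {D : ℕ} {U : Type}

lemma nx_ne {A : Rw s D U} (hA : A.Ax) {x y : U} (h : A.nx x y) : x ≠ y := by
  rintro rfl
  obtain ⟨κ, j, h1, h2⟩ := hA.nx_nd x x h
  have := (nd_unique hA h1 h2).2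
  omega

/-- The graph of the relation `nx`. -/
def nxG (A : Rw s D U) : SimpleGraph U where
  Adj x y := x ≠ y ∧ (A.nx x y ∨ A.nx y x)
  symm := ⟨fun _ _ h => ⟨h.1.symm, h.2.symm⟩⟩
  loopless := ⟨fun _ h => h.1 rfl⟩

lemma nx_out {A : Rw s D U} (hA : A.Ax) {x y z : U} (h1 : A.nx x y) (h2 : A.nx x z) : y = z := by
  obtain ⟨κ, j, hj, hj'⟩ := hA.nx_nd x y h1
  exact (hA.nx_ex κ j x hj hj'.1).unique h1 h2

lemma nx_in {A : Rw s D U} (hA : A.Ax) {x y z : U} (h1 : A.nx y x) (h2 : A.nx z x) : y = z := by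
  obtain ⟨κ, j, hj, hj'⟩ := hA.nx_nd y x h1
  exact (hA.nx_inj κ j x hj').unique h1 h2

lemma co_out {A : Rw s D U} (hA : A.Ax) {x y z : U} (h1 : A.co x y) (h2 : A.co x z) : y = z := by
  obtain ⟨⟨κ, i, hi⟩, -⟩ := hA.co_nd x y h1
  exact (hA.co_ex κ i x hi).unique h1 h2

lemma not_pt_nd {A : Rw s D U} (hA : A.Ax) {κ : s.ι} {j : ℕ} {x : U} (h : A.Nd κ j x) :
    ¬ A.pt x := by
  intro hp
  obtain ⟨hj, h⟩ := h
  obtain ⟨q, -, hq⟩ := hA.kind x
  have e1 := hq (some ⟨κ, ⟨j, hj⟩⟩) h
  have e2 := hq none hp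
  rw [← e2] at e1
  exact absurd e1 (by simp)

lemma nd_of_not_pt {A : Rw s D U} (hA : A.Ax) {x : U} (h : ¬ A.pt x) : ∃ κ j, A.Nd κ j x := by
  obtain ⟨q, hq, -⟩ := hA.kind x
  rcases q with _ | ⟨κ, j⟩
  · exact absurd hq h
  · exact ⟨κ, j.1, j.2, hq⟩

lemma nxG_paths [Finite U] {A : Rw s D U} (hA : A.Ax) : Paths (nxG A) := by
  classical
  constructor
  · intro v c hc
    have hnum : ∀ x : U, ∃ n : ℕ, ∀ κ j, A.Nd κ j x → n = j := by
      intro x
      by_cases h : ∃ κ j, A.Nd κ j x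
      · obtain ⟨κ, j, hj⟩ := h
        exact ⟨j, fun κ' j' hj' => (nd_unique hA hj hj').2⟩
      · exact ⟨0, fun κ j hj => absurd ⟨κ, j, hj⟩ h⟩
    choose num hnum using hnum
    have hfin : {x | x ∈ c.support}.Finite := Set.toFinite _
    obtain ⟨u, hu, hmin⟩ := Set.exists_min_image {x | x ∈ c.support} num hfin
      ⟨v, c.start_mem_support⟩
    obtain ⟨w, w', hne, h1, h2, h3, h4⟩ := cycle_two hc hu
    have key : ∀ w ∈ c.support, (nxG A).Adj u w → A.nx u w := by
      intro w hw huw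
      rcases huw.2 with h | h
      · exact h
      · exfalso
        obtain ⟨κ, j, hj, hj'⟩ := hA.nx_nd w u h
        have h5 := hmin w hw
        rw [hnum _ _ _ hj, hnum _ _ _ hj'] at h5
        omega
    exact hne (nx_out hA (key w h3 h1) (key w' h4 h2))
  · intro v
    have hsub : (nxG A).neighborSet v ⊆ {y | A.nx v y} ∪ {y | A.nx y v} := fun y hy => hy.2
    have s1 : Set.ncard {y : U | A.nx v y} ≤ 1 := by
      rw [Set.ncard_le_one (Set.toFinite _)]
      intro y hy z hz
      exact nx_out hA hy hz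
    have s2 : Set.ncard {y : U | A.nx y v} ≤ 1 := by
      rw [Set.ncard_le_one (Set.toFinite _)]
      intro y hy z hz
      exact nx_in hA hy hz
    calc _ ≤ _ := Set.ncard_le_ncard hsub (Set.toFinite _)
      _ ≤ _ := Set.ncard_union_le _ _
      _ ≤ 2 := by omega

theorem adj_U [(LU s D).Structure U] {x y : U}
    (h : (gaifman (LU s D) U).Adj x y) : (toRw s D U).nx x y ∨ (toRw s D U).nx y x ∨
      (toRw s D U).co x y ∨ (toRw s D U).co y x := by
  obtain ⟨hne, n, R, v, hR, ⟨i, hi⟩, ⟨j, hj⟩⟩ := h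
  have key1 : ∀ v : Fin 1 → U, ∀ i j : Fin 1, v i = x → v j = y → False := by
    intro v i j hi hj
    apply hne
    rw [← hi, ← hj, Subsingleton.elim i j]
  have key2 : ∀ v : Fin 2 → U, ∀ i j : Fin 2, v i = x → v j = y →
      (v = ![x, y] ∨ v = ![y, x]) := by
    intro v i j hi hj
    have hij : i ≠ j := by
      rintro rfl
      exact hne (hi.symm.trans hj)
    fin_cases i <;> fin_cases j
    · exact absurd rfl hij
    · left
      funext k
      fin_cases k
      · exact hi
      · exact hj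
    · right
      funext k
      fin_cases k
      · exact hj
      · exact hi
    · exact absurd rfl hij
  cases R with
  | pt => exact (key1 v i j hi hj).elim
  | nd q => exact (key1 v i j hi hj).elim
  | mar => exact (key1 v i j hi hj).elim
  | nx =>
    rcases key2 v i j hi hj with hv | hv
    · left
      rw [hv] at hR
      exact hR
    · right; left
      rw [hv] at hR
      exact hR
  | co =>
    rcases key2 v i j hi hj with hv | hv
    · right; right; left
      rw [hv] at hR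
      exact hR
    · right; right; right
      rw [hv] at hR
      exact hR

/-- The points and the coordinate nodes. -/
def junk (A : Rw s D U) : Set U :=
  {x | A.pt x ∨ ∃ (κ : s.ι) (i : Fin (s.ar κ)), A.Nd κ (D * (i + 1)) x}

lemma card_junk [Finite U] {A : Rw s D U} (hA : A.Ax) {C : ℕ} (hC : 0 < C) (hD : 2 * C ≤ D)
    (κ₀ : s.ι) (hκ : C ≤ s.ar κ₀) : C * (junk A).ncard ≤ Nat.card U := by
  classical
  have hco := card_co A hA (by omega)
  set m := Nat.card {x : U // A.pt x} with hm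
  have h1 : (junk A).ncard ≤ m + Nat.card {p : U × U // A.co p.1 p.2} := by
    have h2 : junk A = {x | A.pt x} ∪
        {x | ∃ (κ : s.ι) (i : Fin (s.ar κ)), A.Nd κ (D * (i + 1)) x} := rfl
    rw [h2]
    refine (Set.ncard_union_le _ _).trans (Nat.add_le_add le_rfl ?_)
    have h3 : ∀ x ∈ {x | ∃ (κ : s.ι) (i : Fin (s.ar κ)), A.Nd κ (D * (i + 1)) x},
        ∃ w, A.co x w := by
      rintro x ⟨κ, i, hi⟩
      obtain ⟨w, hw, -⟩ := hA.co_ex κ i x hi
      exact ⟨w, hw⟩
    have h4 : Nat.card {x : U // x ∈ {x | ∃ (κ : s.ι) (i : Fin (s.ar κ)),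
        A.Nd κ (D * (i + 1)) x}} ≤ Nat.card {p : U × U // A.co p.1 p.2} := by
      refine Nat.card_le_card_of_injective
        (fun x => ⟨(x.1, (h3 x.1 x.2).choose), (h3 x.1 x.2).choose_spec⟩) ?_
      intro x y hxy
      have h5 := congrArg (fun p : {p : U × U // A.co p.1 p.2} => p.1.1) hxy
      exact Subtype.ext h5
    exact h4
  have h2 : 2 * C * m ≤ Nat.card U := by
    rw [card_U A hA (by omega), ← hm]
    have h3 : D * (s.ar κ₀ + 1) * m ^ s.ar κ₀ ≤
        ∑ κ : s.ι, D * (s.ar κ + 1) * m ^ s.ar κ :=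
      Finset.single_le_sum (f := fun κ : s.ι => D * (s.ar κ + 1) * m ^ s.ar κ)
        (fun _ _ => Nat.zero_le _) (Finset.mem_univ κ₀)
    have h4 : m ≤ m ^ s.ar κ₀ := Nat.le_self_pow (by omega) m
    have h5 : 2 * C * m ≤ D * (s.ar κ₀ + 1) * m ^ s.ar κ₀ := by
      refine Nat.mul_le_mul ?_ h4
      exact hD.trans (Nat.le_mul_of_pos_right _ (by omega))
    unfold NN
    omega
  have h3 : 2 * C * Nat.card {p : U × U // A.co p.1 p.2} ≤ Nat.card U :=
    (Nat.mul_le_mul_right _ hD).trans hco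
  have h4 : 2 * (C * (junk A).ncard) ≤ 2 * C * m +
      2 * C * Nat.card {p : U × U // A.co p.1 p.2} := by
    rw [← mul_add, ← mul_assoc]
    exact Nat.mul_le_mul_left _ h1
  omega

lemma card_edges [Finite U] [(LU s D).Structure U] (hA : (toRw s D U).Ax) {C : ℕ}
    (hC : 0 < C) (hD : 2 * C ≤ D) : AvgDegLE C (gaifman (LU s D) U) := by
  classical
  set A := toRw s D U with hAdef
  have h1 := card_nx A hA
  have h2 := card_co A hA (by omega)
  have h3 : (gaifman (LU s D) U).edgeSet.ncard ≤ Nat.card {p : U × U // A.nx p.1 p.2} +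
      Nat.card {p : U × U // A.co p.1 p.2} := by
    have e2 : Nat.card {p : U × U // A.nx p.1 p.2} = Set.ncard {p : U × U | A.nx p.1 p.2} := rfl
    have e3 : Nat.card {p : U × U // A.co p.1 p.2} = Set.ncard {p : U × U | A.co p.1 p.2} := rfl
    rw [e2, e3]
    have hsub : (gaifman (LU s D) U).edgeSet ⊆
        (fun p : U × U => s(p.1, p.2)) '' ({p : U × U | A.nx p.1 p.2} ∪
          {p : U × U | A.co p.1 p.2}) := by
      intro e
      induction e using Sym2.ind with
      | _ a b =>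
        intro he
        rcases adj_U he with h | h | h | h
        · exact ⟨(a, b), Or.inl h, rfl⟩
        · exact ⟨(b, a), Or.inl h, Sym2.eq_swap⟩
        · exact ⟨(a, b), Or.inr h, rfl⟩
        · exact ⟨(b, a), Or.inr h, Sym2.eq_swap⟩
    calc _ ≤ _ := Set.ncard_le_ncard hsub (Set.toFinite _)
      _ ≤ _ := Set.ncard_image_le (Set.toFinite _)
      _ ≤ _ := Set.ncard_union_le _ _
  unfold AvgDegLE
  set b := Nat.card {p : U × U // A.nx p.1 p.2}
  set c := Nat.card {p : U × U // A.co p.1 p.2}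
  set u := Nat.card U
  calc 2 * C * (gaifman (LU s D) U).edgeSet.ncard ≤ 2 * C * (b + c) :=
        Nat.mul_le_mul_left _ h3
    _ = 2 * C * b + 2 * C * c := by ring
    _ ≤ 2 * C * u + D * c := Nat.add_le_add (Nat.mul_le_mul_left _ h1)
        (Nat.mul_le_mul_right _ hD)
    _ ≤ 2 * C * u + u := Nat.add_le_add_left h2 _
    _ = (2 * C + 1) * u := by ring

lemma girth_U [Finite U] [(LU s D).Structure U] (hA : (toRw s D U).Ax) (hD : 2 ≤ D)
    {v : U} {c : (gaifman (LU s D) U).Walk v v} (hc : c.IsCycle) : D + 1 ≤ c.length := by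
  classical
  set A := toRw s D U with hAdef
  -- a node on the cycle
  obtain ⟨t, ht, κ, j, hj⟩ : ∃ t ∈ c.support, ∃ κ j, A.Nd κ j t := by
    obtain ⟨w, -, -, h1, -, h2, -⟩ := cycle_two hc c.start_mem_support
    by_cases h3 : A.pt v
    · by_cases h4 : A.pt w
      · exfalso
        rcases adj_U h1 with h | h | h | h
        · obtain ⟨κ, j, h5, -⟩ := hA.nx_nd _ _ h
          exact not_pt_nd hA h5 h3
        · obtain ⟨κ, j, h5, -⟩ := hA.nx_nd _ _ h
          exact not_pt_nd hA h5 h4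
        · obtain ⟨⟨κ, i, h5⟩, -⟩ := hA.co_nd _ _ h
          exact not_pt_nd hA h5 h3
        · obtain ⟨⟨κ, i, h5⟩, -⟩ := hA.co_nd _ _ h
          exact not_pt_nd hA h5 h4
      · exact ⟨w, h2, nd_of_not_pt hA h4⟩
    · exact ⟨v, c.start_mem_support, nd_of_not_pt hA h3⟩
  let P : ℕ → Prop := fun n => ∃ t ∈ c.support, A.Nd κ n t
  -- the neighbours of a node
  have hnb : ∀ n u w, A.Nd κ n u → (gaifman (LU s D) U).Adj u w →
      A.nx u w ∨ A.nx w u ∨ (A.co u w ∧ D ∣ n) := by
    intro n u w hu huw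
    rcases adj_U huw with h | h | h | h
    · exact Or.inl h
    · exact Or.inr (Or.inl h)
    · right; right
      refine ⟨h, ?_⟩
      obtain ⟨⟨κ', i, h5⟩, -⟩ := hA.co_nd _ _ h
      obtain ⟨rfl, h6⟩ := nd_unique hA hu h5
      exact ⟨_, h6⟩
    · exact absurd (hA.co_nd _ _ h).2 (not_pt_nd hA hu)
  have hup : ∀ n u w, A.Nd κ n u → A.nx u w → w ∈ c.support → P (n + 1) :=
    fun n u w hu h hw => ⟨w, hw, nx_step hA hu h⟩
  have hdn : ∀ n u w, A.Nd κ n u → A.nx w u → w ∈ c.support → ∃ n', n = n' + 1 ∧ P n' := by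
    intro n u w hu h hw
    obtain ⟨κ', n', h1, h2⟩ := hA.nx_nd _ _ h
    obtain ⟨rfl, h3⟩ := nd_unique hA hu h2
    exact ⟨n', h3, w, hw, h1⟩
  have F1 : ∀ n, P n → ¬ D ∣ n → P (n + 1) ∧ ∃ n', n = n' + 1 ∧ P n' := by
    rintro n ⟨u, hu, hn⟩ hnd
    obtain ⟨w, w', hne, h1, h2, h3, h4⟩ := cycle_two hc hu
    rcases hnb n u w hn h1 with h5 | h5 | h5
    · rcases hnb n u w' hn h2 with h6 | h6 | h6
      · exact absurd (nx_out hA h5 h6) hne
      · exact ⟨hup n u w hn h5 h3, hdn n u w' hn h6 h4⟩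
      · exact absurd h6.2 hnd
    · rcases hnb n u w' hn h2 with h6 | h6 | h6
      · exact ⟨hup n u w' hn h6 h4, hdn n u w hn h5 h3⟩
      · exact absurd (nx_in hA h5 h6) hne
      · exact absurd h6.2 hnd
    · exact absurd h5.2 hnd
  have F2 : ∀ n, P n → P (n + 1) ∨ ∃ n', n = n' + 1 ∧ P n' := by
    rintro n ⟨u, hu, hn⟩
    obtain ⟨w, w', hne, h1, h2, h3, h4⟩ := cycle_two hc hu
    rcases hnb n u w hn h1 with h5 | h5 | h5
    · exact Or.inl (hup n u w hn h5 h3)
    · exact Or.inr (hdn n u w hn h5 h3)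
    · rcases hnb n u w' hn h2 with h6 | h6 | h6
      · exact Or.inl (hup n u w' hn h6 h4)
      · exact Or.inr (hdn n u w' hn h6 h4)
      · exact absurd (co_out hA h5.1 h6.1) hne
  -- a node the number of which is not divisible by `D`
  obtain ⟨n, hPn, hnd⟩ : ∃ n, P n ∧ ¬ D ∣ n := by
    by_cases h1 : D ∣ j
    · rcases F2 j ⟨t, ht, hj⟩ with h2 | ⟨n', h2, h3⟩
      · refine ⟨j + 1, h2, fun h3 => ?_⟩
        have := (Nat.dvd_add_right h1).1 h3
        have := Nat.le_of_dvd (by omega) this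
        omega
      · refine ⟨n', h3, fun h4 => ?_⟩
        rw [h2] at h1
        have := (Nat.dvd_add_right h4).1 h1
        have := Nat.le_of_dvd (by omega) this
        omega
    · exact ⟨j, ⟨t, ht, hj⟩, h1⟩
  have hn : D * (n / D) + n % D = n := Nat.div_add_mod n D
  set a := n / D with ha
  set b := n % D with hb
  have hb0 : 0 < b := by
    rw [Nat.pos_iff_ne_zero]
    intro h
    exact hnd (Nat.dvd_of_mod_eq_zero h)
  have hbD : b < D := Nat.mod_lt _ (by omega)
  have hndv : ∀ i, 0 < i → i < D → ¬ D ∣ D * a + i := by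
    intro i h1 h2 h3
    have := (Nat.dvd_add_right (Dvd.intro a rfl)).1 h3
    have := Nat.le_of_dvd h1 this
    omega
  have hupi : ∀ i, b + i ≤ D → P (D * a + (b + i)) := by
    intro i
    induction i with
    | zero =>
      intro _
      rw [add_zero, hn]
      exact hPn
    | succ i ih =>
      intro h
      exact (F1 _ (ih (by omega)) (hndv _ (by omega) (by omega))).1
  have hdni : ∀ i, i ≤ b → P (D * a + (b - i)) := by
    intro i
    induction i with
    | zero =>
      intro _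
      rw [Nat.sub_zero, hn]
      exact hPn
    | succ i ih =>
      intro h
      obtain ⟨n', h1, h2⟩ := (F1 _ (ih (by omega)) (hndv _ (by omega) (by omega))).2
      have h3 : D * a + (b - (i + 1)) = n' := by omega
      rw [h3]
      exact h2
  have hall : ∀ i : Fin (D + 1), P (D * a + i) := by
    intro i
    have hi := i.2
    rcases le_total b i.1 with h | h
    · have h1 := hupi (i.1 - b) (by omega)
      rwa [Nat.add_sub_cancel' h] at h1
    · have h1 := hdni (b - i.1) (by omega)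
      rwa [Nat.sub_sub_self h] at h1
  choose f hf1 hf2 using hall
  refine cycle_card hc f ?_ hf1
  intro i i' hii
  have h1 := hf2 i
  rw [hii] at h1
  have h2 := (nd_unique hA h1 (hf2 i')).2
  exact Fin.ext (by omega)

/-- **Encoded structures are thin.** -/
theorem thin_U [Finite U] [(LU s D).Structure U] (hA : (toRw s D U).Ax) {C : ℕ} (hC : 0 < C)
    (hD : 2 * C ≤ D) (κ₀ : s.ι) (hκ : C ≤ s.ar κ₀) : ThinGraph C (gaifman (LU s D) U) := by
  classical
  set A := toRw s D U with hAdef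
  refine ⟨card_edges hA hC hD, fun v c hc => ?_, ⟨(junk A)ᶜ, ?_, ?_⟩, {x | A.pt x}, ?_, ?_, ?_⟩
  · have := girth_U hA (by omega) hc
    omega
  · rw [compl_compl]
    exact card_junk hA hC hD κ₀ hκ
  · refine (nxG_paths hA).anti ?_
    rintro x y ⟨h1, h2⟩
    refine ⟨h1.ne, ?_⟩
    rcases adj_U h1 with h | h | h | h
    · exact Or.inl h
    · exact Or.inr h
    · exfalso
      obtain ⟨h3, h4⟩ := hA.co_nd _ _ h
      rcases h2 with h2 | h2
      · exact h2 (Or.inr h3)
      · exact h2 (Or.inl h4)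
    · exfalso
      obtain ⟨h3, h4⟩ := hA.co_nd _ _ h
      rcases h2 with h2 | h2
      · exact h2 (Or.inl h4)
      · exact h2 (Or.inr h3)
  · have hm : 1 ≤ Nat.card {x : U // A.pt x} := by
      obtain ⟨x, y, hx, _, _⟩ := hA.two
      have : Nonempty {x : U // A.pt x} := ⟨⟨x, hx⟩⟩
      exact Nat.card_pos
    have e : ({x | A.pt x} : Set U).ncard = Nat.card {x : U // A.pt x} := rfl
    rw [e, card_U A hA (by omega)]
    set m := Nat.card {x : U // A.pt x}
    have hD0 : 0 < D := by omega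
    calc m ^ C ≤ m ^ s.ar κ₀ := Nat.pow_le_pow_right hm hκ
      _ ≤ D * (s.ar κ₀ + 1) * m ^ s.ar κ₀ := by
          apply Nat.le_mul_of_pos_left
          positivity
      _ ≤ ∑ κ : s.ι, D * (s.ar κ + 1) * m ^ s.ar κ :=
          Finset.single_le_sum (f := fun κ : s.ι => D * (s.ar κ + 1) * m ^ s.ar κ)
            (fun _ _ => Nat.zero_le _) (Finset.mem_univ κ₀)
      _ ≤ NN s D m := by
          unfold NN
          omega
  · intro x hnp
    have hsub : (gaifman (LU s D) U).neighborSet x ⊆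
        ({y : U | A.nx x y} ∪ {y : U | A.nx y x}) ∪ {y : U | A.co x y} := by
      intro y hy
      rcases adj_U hy with h | h | h | h
      · exact Or.inl (Or.inl h)
      · exact Or.inl (Or.inr h)
      · exact Or.inr h
      · exact (hnp (hA.co_nd y x h).2).elim
    have s1 : Set.ncard {y : U | A.nx x y} ≤ 1 := by
      rw [Set.ncard_le_one (Set.toFinite _)]
      intro y hy z hz
      exact nx_out hA hy hz
    have s2 : Set.ncard {y : U | A.nx y x} ≤ 1 := by
      rw [Set.ncard_le_one (Set.toFinite _)]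
      intro y hy z hz
      exact nx_in hA hy hz
    have s3 : Set.ncard {y : U | A.co x y} ≤ 1 := by
      rw [Set.ncard_le_one (Set.toFinite _)]
      intro y hy z hz
      exact co_out hA hy hz
    calc _ ≤ _ := Set.ncard_le_ncard hsub (Set.toFinite _)
      _ ≤ _ := Set.ncard_union_le _ _
      _ ≤ _ := Nat.add_le_add_right (Set.ncard_union_le _ _) _
      _ ≤ 3 := by omega
  · refine ((nxG_paths hA).induce ({x | A.pt x}ᶜ)).anti ?_
    rintro ⟨x, hx⟩ ⟨y, hy⟩ h1
    have h1' : (gaifman (LU s D) U).Adj x y := h1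
    refine ⟨h1'.ne, ?_⟩
    rcases adj_U h1' with h | h | h | h
    · exact Or.inl h
    · exact Or.inr h
    · exact absurd (hA.co_nd _ _ h).2 hy
    · exact absurd (hA.co_nd _ _ h).2 hx

end Pool.Agent.Helper79.TL
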