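import Pool.Agent.Helper79.TL.Count

/-!
# TL: graphs with few edges
-/

set_option autoImplicit false

namespace Pool.Agent.Helper79.TL

variable {V : Type}

lemma low_anti {H H' : SimpleGraph V} {ρ : V → ℕ} (h : H ≤ H') (v : V) :
    low H ρ v ⊆ low H' ρ v := by
  intro u hu
  have hle : (fun a b => H.Adj a b ∧ ρ b ≤ ρ v) ≤ (fun a b => H'.Adj a b ∧ ρ b ≤ ρ v) :=
    fun a b hab => ⟨h hab.1, hab.2⟩
  exact Relation.ReflTransGen.mono hle _ _ hu

lemma TreeWidthLE.anti [Finite V] {k : ℕ} {H H' : SimpleGraph V} (h : H ≤ H')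
    (hT : TreeWidthLE k H') : TreeWidthLE k H := by
  obtain ⟨ρ, hρ, hk⟩ := hT
  refine ⟨ρ, hρ, fun v => (Set.ncard_le_ncard ?_ (Set.toFinite _)).trans (hk v)⟩
  rintro w ⟨h1, u, hu, huw⟩
  exact ⟨h1, u, low_anti h v hu, h huw⟩

/-- a finite nonempty acyclic graph has a point with at most one neighbour -/
lemma exists_leaf {U : Type} [Finite U] [Nonempty U] (H : SimpleGraph U) (hH : H.IsAcyclic) :
    ∃ v, ∀ w w', H.Adj v w → H.Adj v w' → w = w' := by
  classical
  haveI := Fintype.ofFinite U
  rcases subsingleton_or_nontrivial U with hs | hn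
  · obtain ⟨v⟩ := ‹Nonempty U›
    exact ⟨v, fun w w' _ _ => Subsingleton.elim _ _⟩
  · obtain ⟨T, hHT, -, hT⟩ := SimpleGraph.connected_top.exists_isTree_le_of_le_of_isAcyclic
      (H := H) le_top hH
    obtain ⟨v, hv⟩ := hT.exists_vert_degree_one_of_nontrivial
    rw [SimpleGraph.degree_eq_one_iff_existsUnique_adj] at hv
    obtain ⟨w0, hw0, hu⟩ := hv
    refine ⟨v, fun w w' h h' => ?_⟩
    rw [hu w (hHT h), hu w' (hHT h')]

lemma exists_order [Finite V] {F : SimpleGraph V} (hF : F.IsAcyclic) :
    ∃ ρ : V → ℕ, Function.Injective ρ ∧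
      ∀ v w w', F.Adj v w → F.Adj v w' → ρ v < ρ w → ρ v < ρ w' → w = w' := by
  classical
  haveI := Fintype.ofFinite V
  have key : ∀ (n : ℕ) (W : Finset V), W.card = n → ∃ ρ : V → ℕ, Set.InjOn ρ W ∧
      ∀ v ∈ W, ∀ w ∈ W, ∀ w' ∈ W, F.Adj v w → F.Adj v w' → ρ v < ρ w → ρ v < ρ w' →
        w = w' := by
    intro n
    induction n with
    | zero =>
      intro W hW
      rw [Finset.card_eq_zero] at hW
      subst hW
      exact ⟨fun _ => 0, by simp, by simp⟩
    | succ n ih =>
      intro W hW
      have hne : W.Nonempty := Finset.card_pos.1 (by omega)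
      haveI : Nonempty (W : Set V) := hne.to_subtype
      obtain ⟨v0, hv0⟩ := exists_leaf (F.induce (W : Set V)) (hF.induce _)
      obtain ⟨ρ, h1, h2⟩ := ih (W.erase v0.1) (by
        rw [Finset.card_erase_of_mem v0.2, hW]
        rfl)
      refine ⟨fun v => if v = v0.1 then 0 else ρ v + 1, ?_, ?_⟩
      · intro a ha b hb hab
        simp only at hab
        split_ifs at hab with e1 e2 e2
        · rw [e1, e2]
        · exact h1 (Finset.mem_coe.2 (Finset.mem_erase.2 ⟨e1, ha⟩))
            (Finset.mem_coe.2 (Finset.mem_erase.2 ⟨e2, hb⟩)) (by omega)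
      · intro v hv w hw w' hw' hvw hvw' hlt hlt'
        simp only at hlt hlt'
        by_cases e0 : v = v0.1
        · have h3 := hv0 ⟨w, hw⟩ ⟨w', hw'⟩ (by
            show F.Adj v0.1 w
            rw [← e0]
            exact hvw) (by
            show F.Adj v0.1 w'
            rw [← e0]
            exact hvw')
          exact congrArg Subtype.val h3
        · rw [if_neg e0] at hlt hlt'
          have e1 : w ≠ v0.1 := by
            intro e1
            rw [if_pos e1] at hlt
            omega
          have e2 : w' ≠ v0.1 := by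
            intro e2
            rw [if_pos e2] at hlt'
            omega
          rw [if_neg e1] at hlt
          rw [if_neg e2] at hlt'
          exact h2 v (Finset.mem_erase.2 ⟨e0, hv⟩) w (Finset.mem_erase.2 ⟨e1, hw⟩) w'
            (Finset.mem_erase.2 ⟨e2, hw'⟩) hvw hvw' (by omega) (by omega)
  obtain ⟨ρ, h1, h2⟩ := key _ Finset.univ rfl
  refine ⟨ρ, ?_, fun v w w' => h2 v (Finset.mem_univ _) w (Finset.mem_univ _) w'
    (Finset.mem_univ _)⟩
  intro a b hab
  exact h1 (by simp) (by simp) hab

/-- in such an order only the point itself has higher neighbours -/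
lemma high_forest {F : SimpleGraph V} {ρ : V → ℕ} (hρ : Function.Injective ρ)
    (h2 : ∀ v w w', F.Adj v w → F.Adj v w' → ρ v < ρ w → ρ v < ρ w' → w = w') (v : V) :
    high F ρ v ⊆ {w | F.Adj v w ∧ ρ v < ρ w} := by
  have key : ∀ n : ℕ, ∀ v, ρ v = n → high F ρ v ⊆ {w | F.Adj v w ∧ ρ v < ρ w} := by
    intro n
    induction n using Nat.strong_induction_on with
    | _ n ih =>
      rintro v hn w ⟨h1, u, hu, huw⟩
      by_cases huv : u = v
      · rw [huv] at huw
        exact ⟨huw, h1⟩
      · obtain ⟨b, hb, hbv⟩ := exists_high hρ hu huv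
        have h3 : ρ u < ρ v := lt_of_le_of_ne (rank_low hu) fun h => huv (hρ h)
        have h4 := ih (ρ u) (by omega) u rfl hb
        have h5 := h2 u w b huw h4.1 ((rank_low hu).trans_lt h1) h4.2
        rw [h5] at h1
        exact absurd (rank_low hbv) (not_le.2 h1)
  exact key _ v rfl

lemma treeWidth_forest [Finite V] {F : SimpleGraph V} (hF : F.IsAcyclic) :
    TreeWidthLE 1 F := by
  obtain ⟨ρ, hρ, h2⟩ := exists_order hF
  refine ⟨ρ, hρ, fun v => ?_⟩
  rw [Set.ncard_le_one (Set.toFinite _)]
  intro a ha b hb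
  have h3 := high_forest hρ h2 v ha
  have h4 := high_forest hρ h2 v hb
  exact h2 v a b h3.1 h4.1 h3.2 h4.2

/-- few edges meeting `X`: many components or a forest apart from the edges inside a small set -/
theorem few_edges [Finite V] (G : SimpleGraph V) (X : Set V) (N e : ℕ)
    (he : (meet G X).edgeSet.ncard ≤ X.ncard + e) : Chain G 0 N ∨
      ∃ X' ⊆ X, (X \ X').ncard ≤ 2 * (e + N + (bdry G X).ncard) ∧
        (bdry G X').ncard ≤ 2 * (e + N + (bdry G X).ncard) + (bdry G X).ncard ∧
        TreeWidthLE 1 (meet G X') := by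
  classical
  haveI := Fintype.ofFinite V
  set b := (bdry G X).ncard with hb
  obtain ⟨F, hFG, hF, hreach⟩ := (meet G X).exists_isAcyclic_reachable_eq_le
  obtain ⟨ρ, hρ, h2⟩ := exists_order hF
  -- the components of roots are closed
  have hclosedF : ∀ c, high F ρ c = ∅ → ∀ u ∈ low F ρ c, ∀ w, F.Reachable u w →
      w ∈ low F ρ c := by
    intro c hc u hu w huw
    obtain ⟨p⟩ := huw
    induction p with
    | nil => exact hu
    | @cons a b d hab q ih =>
      refine ih ?_
      by_cases hr : ρ b ≤ ρ c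
      · exact low_step hu hab hr
      · exfalso
        have h4 : b ∈ high F ρ c := ⟨not_le.1 hr, a, hu, hab⟩
        rw [hc] at h4
        exact h4
  have hreachF : ∀ c, ∀ u ∈ low F ρ c, F.Reachable c u := by
    intro c u hu
    induction hu with
    | refl => exact SimpleGraph.Reachable.refl _
    | tail _ h ih => exact ih.trans h.1.reachable
  have hdisj : ∀ c c', high F ρ c = ∅ → high F ρ c' = ∅ → ∀ u ∈ low F ρ c, u ∈ low F ρ c' →
      c = c' := by
    intro c c' hc hc' u hu hu'
    have h3 := hclosedF c hc u hu c' (hreachF c' u hu').symm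
    have h4 := hclosedF c' hc' u hu' c (hreachF c u hu).symm
    exact hρ (le_antisymm (rank_low h4) (rank_low h3))
  have hXb : ∀ c ∈ X, ∀ u ∈ low F ρ c, u ∈ X ∪ bdry G X := by
    intro c hc u hu
    induction hu with
    | refl => exact Or.inl hc
    | @tail a b' _ h ih =>
      by_cases hbX : b' ∈ X
      · exact Or.inl hbX
      · right
        have h5 := hFG h.1
        rcases h5.2 with h6 | h6
        · exact ⟨hbX, a, h6, h5.1⟩
        · exact absurd h6 hbX
  -- the roots
  let R : Set V := {v | v ∈ X ∧ high F ρ v = ∅}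
  let R₁ : Set V := {v | v ∈ R ∧ ∀ u ∈ low F ρ v, u ∉ bdry G X}
  have hR₁ : R.ncard ≤ R₁.ncard + b := by
    have h3 : (R \ R₁).ncard ≤ b := by
      have h4 : ∀ v ∈ R \ R₁, ∃ u ∈ low F ρ v, u ∈ bdry G X := by
        rintro v ⟨hv, hv'⟩
        by_contra hno
        push Not at hno
        exact hv' ⟨hv, hno⟩
      refine Set.ncard_le_ncard_of_injOn
        (fun v => if hv : v ∈ R \ R₁ then (h4 v hv).choose else v) ?_ ?_ (Set.toFinite _)
      · intro v hv
        simp only [dif_pos hv]
        exact (h4 v hv).choose_spec.2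
      · intro a ha a' ha' haa
        simp only [dif_pos ha, dif_pos ha'] at haa
        have h5 := (h4 a ha).choose_spec.1
        have h6 := (h4 a' ha').choose_spec.1
        rw [haa] at h5
        exact hdisj a a' ha.1.2 ha'.1.2 _ h5 h6
    have h4 : R₁ ⊆ R := fun v hv => hv.1
    have h5 := Set.ncard_diff_add_ncard_of_subset h4 (Set.toFinite _)
    omega
  by_cases hR : N < R₁.ncard
  · left
    obtain ⟨c, hc, hcs⟩ := exists_inj hR
    have hclosed : ∀ i, ∀ u ∈ low F ρ (c i), ∀ w, G.Adj u w → w ∈ low F ρ (c i) := by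
      intro i u hu w huw
      have huX : u ∈ X := by
        rcases hXb (c i) (hcs i).1.1 u hu with h | h
        · exact h
        · exact absurd h ((hcs i).2 u hu)
      refine hclosedF (c i) (hcs i).1.2 u hu w ?_
      rw [hreach]
      exact SimpleGraph.Adj.reachable ⟨huw, Or.inl huX⟩
    refine ⟨fun i => ⋃ j ∈ Set.Iic i, low F ρ (c j), ?_, ?_⟩
    · rw [Fin.strictMono_iff_lt_succ]
      intro i
      refine Set.ssubset_iff_of_subset ?_ |>.2 ⟨c i.succ, ?_, ?_⟩
      · refine Set.biUnion_subset_biUnion_left ?_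
        exact Set.Iic_subset_Iic.2 (Fin.castSucc_lt_succ).le
      · simp only [Set.mem_iUnion]
        exact ⟨i.succ, Set.mem_Iic.2 le_rfl, mem_low_self _⟩
      · intro h
        simp only [Set.mem_iUnion] at h
        obtain ⟨j, hj, hcj⟩ := h
        have hne := hdisj (c j) (c i.succ) (hcs j).1.2 (hcs i.succ).1.2 _ hcj (mem_low_self _)
        have h5 := hc hne
        have h6 : j ≤ i.castSucc := hj
        rw [h5] at h6
        exact absurd (Fin.castSucc_lt_succ (i := i)) (not_lt.2 h6)
    · intro i
      refine cut_of_subset (B := ∅) (by simp) ?_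
      intro u hu _ w huw
      simp only [Set.mem_iUnion] at hu ⊢
      obtain ⟨j, hj, huj⟩ := hu
      exact ⟨j, hj, hclosed j u huj w huw⟩
  · right
    rw [not_lt] at hR
    -- the parent edges
    have hcardF : X.ncard ≤ F.edgeSet.ncard + R.ncard := by
      have h3 : ∀ v, v ∈ X \ R → ∃ w, F.Adj v w ∧ ρ v < ρ w := by
        rintro v ⟨hvX, hv⟩
        have hv' : high F ρ v ≠ ∅ := fun h => hv ⟨hvX, h⟩
        obtain ⟨w, hw⟩ := Set.nonempty_iff_ne_empty.2 hv'
        exact ⟨w, high_forest hρ h2 v hw⟩
      have h4 : (X \ R).ncard ≤ F.edgeSet.ncard := by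
        refine Set.ncard_le_ncard_of_injOn
          (fun v => if hv : v ∈ X \ R then s(v, (h3 v hv).choose) else s(v, v)) ?_ ?_
          (Set.toFinite _)
        · intro v hv
          simp only [dif_pos hv]
          exact (h3 v hv).choose_spec.1
        · intro a ha b' hb' hab
          simp only [dif_pos ha, dif_pos hb'] at hab
          have h5 := (h3 a ha).choose_spec.2
          have h6 := (h3 b' hb').choose_spec.2
          rw [Sym2.eq_iff] at hab
          rcases hab with ⟨h7, -⟩ | ⟨h7, h8⟩
          · exact h7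
          · exfalso
            rw [h8, h7] at h5
            rw [← h7] at h5
            rw [h7] at h5
            omega
      have h4' : R ⊆ X := fun v hv => hv.1
      have h5 := Set.ncard_diff_add_ncard_of_subset h4' (Set.toFinite _)
      omega
    let D : Set (Sym2 V) := (meet G X).edgeSet \ F.edgeSet
    have hsub : F.edgeSet ⊆ (meet G X).edgeSet := SimpleGraph.edgeSet_mono hFG
    have hD : D.ncard ≤ e + N + b := by
      have h3 := Set.ncard_diff_add_ncard_of_subset hsub (Set.toFinite _)
      have h4 : D.ncard + F.edgeSet.ncard = (meet G X).edgeSet.ncard := h3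
      omega
    let S : Set V := {v | ∃ d ∈ D, v ∈ d}
    have hS : S.ncard ≤ 2 * (e + N + b) := by
      have h3 : S ⊆ ((D.toFinset.biUnion fun d => d.toFinset : Finset V) : Set V) := by
        rintro v ⟨d, hd, hv⟩
        simp only [Finset.coe_biUnion, Set.mem_iUnion, Finset.mem_coe, Set.mem_toFinset,
          Sym2.mem_toFinset]
        exact ⟨d, hd, hv⟩
      refine (Set.ncard_le_ncard h3 (Set.toFinite _)).trans ?_
      rw [Set.ncard_coe_finset]
      refine (Finset.card_biUnion_le_card_mul _ _ 2 ?_).trans ?_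
      · intro d _
        induction d using Sym2.ind with
        | _ a b' =>
          rw [Sym2.toFinset_mk_eq]
          exact (Finset.card_insert_le _ _).trans (by simp)
      · rw [Set.ncard_eq_toFinset_card'] at hD
        rw [mul_comm]
        exact Nat.mul_le_mul_left 2 hD
    refine ⟨X \ S, Set.diff_subset, ?_, ?_, ?_⟩
    · refine (Set.ncard_le_ncard ?_ (Set.toFinite _)).trans hS
      rintro v ⟨hv, hv'⟩
      by_contra hvS
      exact hv' ⟨hv, hvS⟩
    · refine (Set.ncard_le_ncard (t := S ∪ bdry G X) ?_ (Set.toFinite _)).trans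
        ((Set.ncard_union_le _ _).trans (Nat.add_le_add_right hS _))
      rintro w ⟨hw, u, hu, huw⟩
      by_cases hwX : w ∈ X
      · left
        by_contra hwS
        exact hw ⟨hwX, hwS⟩
      · right
        exact ⟨hwX, u, hu.1, huw⟩
    · refine TreeWidthLE.anti (H' := F) ?_ (treeWidth_forest hF)
      rintro a b' ⟨hab, hX⟩
      by_contra hF'
      have hd : s(a, b') ∈ D := ⟨⟨hab, hX.imp (fun h => h.1) fun h => h.1⟩, hF'⟩
      rcases hX with h | h
      · exact h.2 ⟨_, hd, Sym2.mem_mk_left a b'⟩
      · exact h.2 ⟨_, hd, Sym2.mem_mk_right a b'⟩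

end Pool.Agent.Helper79.TL
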