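import Pool.Agent.Helper79.TL.Thin
import Pool.Agent.Helper79.TL.Forest

/-!
# TL: tame models can be pumped
-/

set_option autoImplicit false

namespace Pool.Agent.Helper79.TL

open FirstOrder FirstOrder.Language Pool.Agent.Helper32.Pump

lemma cutIndex_mono {L : FirstOrder.Language.{0, 0}} {M : Type} [L.Structure M] {r r' : ℕ}
    (hr : r ≤ r') {U : Set M} (h : CutIndexLE L M r U) : CutIndexLE L M r' U := by
  obtain ⟨c, hc⟩ := h
  exact ⟨fun x => Fin.castLE hr (c x), fun u hu u' hu' huu =>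
    hc u hu u' hu' (Fin.castLE_injective hr huu)⟩

lemma cutChain_mono {L : FirstOrder.Language.{0, 0}} {M : Type} [L.Structure M] {r r' N N' : ℕ}
    (hr : r ≤ r') (hN : N' ≤ N) (h : HasCutChain L M r N) : HasCutChain L M r' N' := by
  obtain ⟨U, h1, h2⟩ := h
  refine ⟨fun i => U (Fin.castLE (by omega) i), ?_, fun i => cutIndex_mono hr (h2 _)⟩
  intro i j hij
  exact h1 (Fin.castLE_lt_castLE_iff (by omega) |>.2 hij)

/-- few edges meeting a large set with a small boundary -/
theorem avg_chain (N : ℕ) : ∃ C : ℕ, ∀ C', C ≤ C' → ∀ (V : Type) [Finite V] (G : SimpleGraph V)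
    (X : Set V), C' * ((bdry G X).ncard + 1) ≤ X.ncard →
    2 * C' * (meet G X).edgeSet.ncard ≤ (2 * C' + 1) * X.ncard → Chain G 0 N ∨ Chain G 3 N := by
  obtain ⟨c, hc⟩ := exists_chain 1 N
  refine ⟨16 * (c + 1) * (N + 1), ?_⟩
  intro C hC V _ G X hV hG
  set n := X.ncard with hn
  set b := (bdry G X).ncard with hb
  have hC0 : 0 < C := by
    have : 0 < 16 * (c + 1) * (N + 1) := by positivity
    omega
  obtain ⟨e, he⟩ : ∃ e, e = n / (2 * C) := ⟨_, rfl⟩
  have h1 : (meet G X).edgeSet.ncard ≤ n + e := by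
    have h3 : n < 2 * C * (e + 1) := by
      rw [he]
      exact Nat.lt_mul_div_succ n (by omega)
    by_contra h4
    rw [not_le] at h4
    have h5 : 2 * C * (n + e + 1) ≤ 2 * C * (meet G X).edgeSet.ncard := Nat.mul_le_mul_left _ h4
    have h6 : 2 * C * (n + e + 1) = 2 * C * n + 2 * C * (e + 1) := by ring
    have h7 : (2 * C + 1) * n = 2 * C * n + n := by ring
    omega
  rcases few_edges G X N e h1 with h2 | ⟨X', hX', hS, hB, hT⟩
  · exact Or.inl h2
  · right
    refine hc V G X' hT ?_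
    have h4 := Set.ncard_diff_add_ncard_of_subset hX' (Set.toFinite _)
    have h5 : 2 * C * e ≤ n := by
      rw [he]
      exact Nat.mul_div_le n (2 * C)
    rw [← hb] at hS hB
    -- the estimate
    set y := (bdry G X').ncard with hy
    set z := (X \ X').ncard with hz
    have h6 : c * (y + 1) + z ≤ (c + 1) * (2 * (e + N + b) + b + 1) := by
      have h7 : c * (y + 1) ≤ c * (2 * (e + N + b) + b + 1) := Nat.mul_le_mul_left _ (by omega)
      have h8 : (c + 1) * (2 * (e + N + b) + b + 1) = c * (2 * (e + N + b) + b + 1) +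
          (2 * (e + N + b) + b + 1) := by ring
      omega
    have h7 : (c + 1) * (2 * (e + N + b) + b + 1) ≤
        2 * ((c + 1) * (N + 1) * e) + 3 * ((c + 1) * (N + 1) * (b + 1)) := by
      have h8 : (c + 1) * e ≤ (c + 1) * (N + 1) * e := by
        rw [mul_assoc]
        exact Nat.mul_le_mul_left _ (Nat.le_mul_of_pos_left _ (by omega))
      have h9 : (c + 1) * (2 * N + 3 * b + 1) ≤ 3 * ((c + 1) * (N + 1) * (b + 1)) := by
        have h10 : 2 * N + 3 * b + 1 ≤ 3 * ((N + 1) * (b + 1)) := by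
          have h11 : (N + 1) * (b + 1) = N * b + N + b + 1 := by ring
          have h12 : 0 ≤ N * b := Nat.zero_le _
          omega
        calc (c + 1) * (2 * N + 3 * b + 1) ≤ (c + 1) * (3 * ((N + 1) * (b + 1))) :=
              Nat.mul_le_mul_left _ h10
          _ = 3 * ((c + 1) * (N + 1) * (b + 1)) := by ring
      have h10 : (c + 1) * (2 * (e + N + b) + b + 1) =
          2 * ((c + 1) * e) + (c + 1) * (2 * N + 3 * b + 1) := by ring
      omega
    have h8 : 2 * (16 * (c + 1) * (N + 1)) * e ≤ 2 * C * e :=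
      Nat.mul_le_mul_right _ (Nat.mul_le_mul_left _ hC)
    have h9 : 2 * (16 * (c + 1) * (N + 1)) * e = 32 * ((c + 1) * (N + 1) * e) := by ring
    have h10 : 16 * (c + 1) * (N + 1) * (b + 1) ≤ C * (b + 1) := Nat.mul_le_mul_right _ hC
    have h11 : 16 * (c + 1) * (N + 1) * (b + 1) = 16 * ((c + 1) * (N + 1) * (b + 1)) := by ring
    have h12 : 0 < (c + 1) * (N + 1) * (b + 1) := by positivity
    omega

/-- **Tame models can be pumped.** -/
theorem pump_tame {L : FirstOrder.Language.{0, 0}} (hL : ∀ n, IsEmpty (L.Functions n))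
    (hf : Finite (Σ n, L.Relations n)) (φ : L.Sentence) (k r : ℕ) :
    ∃ C p : ℕ, 0 < C ∧ 0 < p ∧ ∀ (A : Type) [L.Structure A] [Finite A], φ.Realize A →
      Tame L k r C A → ∀ j : ℕ, ∃ (M' : Type) (_ : L.Structure M'),
        Finite M' ∧ Nat.card M' = Nat.card A + j * p ∧ φ.Realize M' := by
  set r' := max r (2 * k + 4) with hr'
  obtain ⟨N, p, hp, hpump⟩ := pump_sentence hL hf φ r'
  obtain ⟨C₁, h1⟩ := exists_chain k N
  obtain ⟨C₂, h2⟩ := avg_chain N
  refine ⟨N + C₁ + C₂ + 1, p, by omega, hp, ?_⟩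
  intro A _ _ hφ hA j
  refine hpump A ?_ hφ j
  rcases hA with hA | ⟨X, hX, hT | hT⟩
  · exact cutChain_mono (le_max_left _ _) (by omega) hA
  · have h5 : C₁ * ((bdry (gaifman L A) X).ncard + 1) < X.ncard := by
      refine lt_of_lt_of_le ?_ hX
      exact Nat.mul_lt_mul_of_pos_right (by omega) (by omega)
    exact cutChain_mono (by omega) le_rfl (hasCutChain_of_chain (h1 A (gaifman L A) X hT h5))
  · rcases h2 _ (by omega) A (gaifman L A) X hX hT with h5 | h5
    · exact cutChain_mono (by omega) le_rfl (hasCutChain_of_chain h5)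
    · exact cutChain_mono (by omega) le_rfl (hasCutChain_of_chain h5)

end Pool.Agent.Helper79.TL
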