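import Pool.Agent.Helper79.TL.Defs

/-!
# TL: elimination orders
-/

set_option autoImplicit false

namespace Pool.Agent.Helper79.TL

variable {V : Type} {H : SimpleGraph V} {ρ : V → ℕ}

lemma mem_low_self (v : V) : v ∈ low H ρ v := Relation.ReflTransGen.refl

lemma rank_low {v u : V} (h : u ∈ low H ρ v) : ρ u ≤ ρ v := by
  rcases Relation.ReflTransGen.cases_tail h with h | ⟨b, -, hb⟩
  · rw [h]
  · exact hb.2

lemma low_step {v u w : V} (h : u ∈ low H ρ v) (hw : H.Adj u w) (hr : ρ w ≤ ρ v) :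
    w ∈ low H ρ v := Relation.ReflTransGen.tail h ⟨hw, hr⟩

lemma low_trans {v u w : V} (h : u ∈ low H ρ v) (hw : w ∈ low H ρ u) : w ∈ low H ρ v := by
  have hr := rank_low h
  refine Relation.ReflTransGen.trans h ?_
  have hle : (fun a b => H.Adj a b ∧ ρ b ≤ ρ u) ≤ (fun a b => H.Adj a b ∧ ρ b ≤ ρ v) :=
    fun a b hab => ⟨hab.1, hab.2.trans hr⟩
  exact Relation.ReflTransGen.mono hle _ _ hw

lemma low_subset {v u : V} (h : u ∈ low H ρ v) : low H ρ u ⊆ low H ρ v :=
  fun _ hw => low_trans h hw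

/-- paths can be reversed -/
lemma low_rev {v u w : V} (hu : w ∈ low H ρ u) (hr : ρ u ≤ ρ v) :
    Relation.ReflTransGen (fun a b => H.Adj a b ∧ ρ b ≤ ρ v) w u := by
  unfold low at hu
  simp only [Set.mem_ofPred_eq] at hu
  induction hu with
  | refl => exact Relation.ReflTransGen.refl
  | @tail b c hb hc ih =>
    have h1 : ρ b ≤ ρ u := rank_low (v := u) hb
    exact Relation.ReflTransGen.head ⟨hc.1.symm, h1.trans hr⟩ ih

lemma mem_low_of_meet {v u w : V} (hv : w ∈ low H ρ v) (hu : w ∈ low H ρ u)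
    (hr : ρ u ≤ ρ v) : u ∈ low H ρ v :=
  Relation.ReflTransGen.trans hv (low_rev hu hr)

/-- a point below `v` has a higher neighbour below `v` -/
lemma exists_high (hρ : Function.Injective ρ) {v u : V} (hu : u ∈ low H ρ v) (hne : u ≠ v) :
    ∃ b ∈ high H ρ u, b ∈ low H ρ v := by
  have hlt : ρ u < ρ v := lt_of_le_of_ne (rank_low hu) fun h => hne (hρ h)
  have h1 := low_rev hu (le_refl (ρ v))
  have key : ∀ w, Relation.ReflTransGen (fun a b => H.Adj a b ∧ ρ b ≤ ρ v) u w →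
      w ∈ low H ρ u ∨ ∃ b ∈ high H ρ u, b ∈ low H ρ v := by
    intro w hw
    induction hw with
    | refl => exact Or.inl (mem_low_self u)
    | @tail b c hb hc ih =>
      rcases ih with ih | ih
      · by_cases hcr : ρ c ≤ ρ u
        · exact Or.inl (low_step ih hc.1 hcr)
        · exact Or.inr ⟨c, ⟨not_le.1 hcr, b, ih, hc.1⟩, low_step (low_trans hu ih) hc.1 hc.2⟩
      · exact Or.inr ih
  rcases key v h1 with h2 | h2
  · exact absurd (rank_low h2) (not_le.2 hlt)
  · exact h2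

/-- `w` is the parent of `v` -/
def Par (H : SimpleGraph V) (ρ : V → ℕ) (v w : V) : Prop :=
  w ∈ high H ρ v ∧ ∀ w' ∈ high H ρ v, ρ w ≤ ρ w'

lemma exists_par {v : V} (h : (high H ρ v).Nonempty) : ∃ w, Par H ρ v w := by
  obtain ⟨w, hw⟩ : ∃ w, w ∈ high H ρ v ∧ ∀ w' ∈ high H ρ v, ρ w ≤ ρ w' := by
    have h1 : ∃ n, ∃ w ∈ high H ρ v, ρ w = n := by
      obtain ⟨w, hw⟩ := h
      exact ⟨ρ w, w, hw, rfl⟩
    classical
    obtain ⟨w, hw, hwn⟩ := Nat.find_spec h1
    refine ⟨w, hw, fun w' hw' => ?_⟩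
    rw [hwn]
    exact Nat.find_min' h1 ⟨w', hw', rfl⟩
  exact ⟨w, hw⟩

lemma par_lt {v w : V} (h : Par H ρ v w) : ρ v < ρ w := h.1.1

lemma par_unique (hρ : Function.Injective ρ) {v w w' : V} (h : Par H ρ v w)
    (h' : Par H ρ v w') : w = w' :=
  hρ (le_antisymm (h.2 w' h'.1) (h'.2 w h.1))

lemma mem_low_par {v w : V} (h : Par H ρ v w) : v ∈ low H ρ w := by
  obtain ⟨u, hu, huw⟩ := h.1.2
  have h1 : u ∈ low H ρ w :=
    low_step (mem_low_self w) huw.symm ((rank_low hu).trans h.1.1.le)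
  exact mem_low_of_meet h1 hu h.1.1.le

lemma par_mem_low (hρ : Function.Injective ρ) {v u w : V} (hu : u ∈ low H ρ v) (hne : u ≠ v)
    (hw : Par H ρ u w) : w ∈ low H ρ v := by
  obtain ⟨b, hb, hbv⟩ := exists_high hρ hu hne
  obtain ⟨a, ha, haw⟩ := hw.1.2
  exact low_step (low_trans hu ha) haw ((hw.2 b hb).trans (rank_low hbv))

lemma high_subset (hρ : Function.Injective ρ) {v w : V} (h : Par H ρ v w) :
    high H ρ v ⊆ insert w (high H ρ w) := by
  intro x hx
  by_cases hxw : x = w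
  · exact Or.inl hxw
  · right
    obtain ⟨u, hu, hux⟩ := hx.2
    refine ⟨lt_of_le_of_ne (h.2 x hx) fun h1 => hxw (hρ h1).symm, u, ?_, hux⟩
    exact low_trans (mem_low_par h) hu

/-- every point below `v` is `v` or below a child of `v` -/
lemma exists_child (hρ : Function.Injective ρ) {v : V} : ∀ {u : V}, u ∈ low H ρ v → u ≠ v →
    ∃ c, Par H ρ c v ∧ u ∈ low H ρ c := by
  have key : ∀ n : ℕ, ∀ u : V, ρ v - ρ u = n → u ∈ low H ρ v → u ≠ v →
      ∃ c, Par H ρ c v ∧ u ∈ low H ρ c := by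
    intro n
    induction n using Nat.strong_induction_on with
    | _ n ih =>
      intro u hn hu hne
      obtain ⟨b, hb, hbv⟩ := exists_high hρ hu hne
      obtain ⟨w, hw⟩ := exists_par ⟨b, hb⟩
      have hwv := par_mem_low hρ hu hne hw
      by_cases hwe : w = v
      · rw [hwe] at hw
        exact ⟨u, hw, mem_low_self u⟩
      · have h1 := par_lt hw
        have h2 := rank_low hwv
        have h3 : ρ w < ρ v := lt_of_le_of_ne h2 fun h => hwe (hρ h)
        obtain ⟨c, hc, hwc⟩ := ih (ρ v - ρ w) (by omega) w rfl hwv hwe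
        exact ⟨c, hc, low_trans hwc (mem_low_par hw)⟩
  intro u hu hne
  exact key _ u rfl hu hne

lemma child_subset {v c : V} (h : Par H ρ c v) : low H ρ c ⊆ low H ρ v :=
  low_subset (mem_low_par h)

/-- different children have disjoint branches -/
lemma child_disjoint (hρ : Function.Injective ρ) {v c c' u : V} (h : Par H ρ c v)
    (h' : Par H ρ c' v) (hu : u ∈ low H ρ c) (hu' : u ∈ low H ρ c') : c = c' := by
  have key : ∀ c c' : V, Par H ρ c v → Par H ρ c' v → u ∈ low H ρ c → u ∈ low H ρ c' →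
      ρ c ≤ ρ c' → c = c' := by
    intro c c' h h' hu hu' hr
    by_contra hne
    have h1 := mem_low_of_meet hu' hu hr
    have h2 := par_mem_low hρ h1 hne h
    exact absurd (rank_low h2) (not_le.2 (par_lt h'))
  rcases le_total (ρ c) (ρ c') with hr | hr
  · exact key c c' h h' hu hu' hr
  · exact (key c' c h' h hu' hu hr).symm

lemma not_mem_child {v c : V} (h : Par H ρ c v) : v ∉ low H ρ c := fun h1 =>
  absurd (rank_low h1) (not_le.2 (par_lt h))

/-- the edges of `G` at a point of a branch inside `X` -/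
lemma adj_mem {G : SimpleGraph V} {X : Set V} {v u w : V} (hu : u ∈ low (meet G X) ρ v)
    (hX : u ∈ X) (h : G.Adj u w) : w ∈ low (meet G X) ρ v ∨ w ∈ high (meet G X) ρ v := by
  have h1 : (meet G X).Adj u w := ⟨h, Or.inl hX⟩
  by_cases hr : ρ w ≤ ρ v
  · exact Or.inl (low_step hu h1 hr)
  · exact Or.inr ⟨not_le.1 hr, u, hu, h1⟩

end Pool.Agent.Helper79.TL
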