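import Pool.Agent.Helper79.TL.Elim

/-!
# TL: chains from elimination orders
-/

set_option autoImplicit false

namespace Pool.Agent.Helper79.TL

variable {V : Type} {G : SimpleGraph V} {X : Set V} {ρ : V → ℕ}

lemma Cut.mono {b b' : ℕ} {U : Set V} (h : Cut G b U) (hb : b ≤ b') : Cut G b' U :=
  le_trans h hb

lemma Chain.mono {b b' N : ℕ} (h : Chain G b N) (hb : b ≤ b') : Chain G b' N := by
  obtain ⟨U, h1, h2⟩ := h
  exact ⟨U, h1, fun i => (h2 i).mono hb⟩

lemma cut_of_subset [Finite V] {b : ℕ} {U B : Set V} (hB : B.ncard ≤ b)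
    (h : ∀ u ∈ U, u ∉ B → ∀ w, G.Adj u w → w ∈ U) : Cut G b U := by
  refine le_trans (Set.ncard_le_ncard ?_ (Set.toFinite _)) hB
  rintro u ⟨hu, w, hw, huw⟩
  by_contra huB
  exact hw (h u hu huB w huw)

lemma chain_of_seq {b t N m : ℕ} (W : ℕ → Set V) (hmono : ∀ j, j < m → W j ⊆ W (j + 1))
    (hcut : ∀ j, j ≤ m → Cut G b (W j)) (hne : ∀ j, j + t ≤ m → W j ≠ W (j + t))
    (hm : t * N ≤ m) : Chain G b N := by
  have hmono2 : ∀ d j, j + d ≤ m → W j ⊆ W (j + d) := by
    intro d
    induction d with
    | zero => intro j _; exact subset_rfl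
    | succ d ih =>
      intro j hj
      exact (ih j (by omega)).trans (hmono (j + d) (by omega))
  refine ⟨fun i => W (t * i.1), ?_, ?_⟩
  · rw [Fin.strictMono_iff_lt_succ]
    intro i
    have h1 : t * (i.1 + 1) = t * i.1 + t := by ring
    have h2 : t * i.1 + t ≤ m := by
      rw [← h1]
      exact (Nat.mul_le_mul_left t i.2).trans hm
    show W (t * i.1) < W (t * (i.1 + 1))
    rw [h1]
    exact lt_of_le_of_ne (hmono2 t _ h2) (hne _ h2)
  · intro i
    refine hcut _ (le_trans (Nat.mul_le_mul_left t ?_) hm)
    exact Nat.lt_succ_iff.1 i.2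

/-- many clean branches at one point -/
lemma chain_children [Finite V] (hρ : Function.Injective ρ) {k N : ℕ}
    (hk : ∀ v, (high (meet G X) ρ v).ncard ≤ k) {v : V} (c : Fin (N + 1) → V)
    (hc : Function.Injective c) (hpar : ∀ i, Par (meet G X) ρ (c i) v)
    (hX : ∀ i, low (meet G X) ρ (c i) ⊆ X) : Chain G (k + 1) N := by
  let B : Set V := insert v (high (meet G X) ρ v)
  have hB : B.ncard ≤ k + 1 :=
    (Set.ncard_insert_le _ _).trans (Nat.add_le_add_right (hk v) 1)
  refine ⟨fun i => B ∪ ⋃ j ∈ Set.Iic i, low (meet G X) ρ (c j), ?_, ?_⟩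
  · rw [Fin.strictMono_iff_lt_succ]
    intro i
    refine Set.ssubset_iff_of_subset ?_ |>.2 ⟨c i.succ, ?_, ?_⟩
    · refine Set.union_subset_union_right _ ?_
      refine Set.biUnion_subset_biUnion_left ?_
      exact Set.Iic_subset_Iic.2 (Fin.castSucc_lt_succ).le
    · right
      simp only [Set.mem_iUnion]
      exact ⟨i.succ, Set.mem_Iic.2 le_rfl, mem_low_self _⟩
    · rintro (h | h)
      · rcases h with h | h
        · have := par_lt (hpar i.succ)
          rw [h] at this
          exact lt_irrefl _ this
        · exact absurd h.1 (not_lt.2 (par_lt (hpar i.succ)).le)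
      · simp only [Set.mem_iUnion] at h
        obtain ⟨j, hj, hcj⟩ := h
        have h1 := child_disjoint hρ (hpar i.succ) (hpar j) (mem_low_self _) hcj
        have h2 := hc h1
        have h3 : j ≤ i.castSucc := hj
        rw [← h2] at h3
        exact absurd (Fin.castSucc_lt_succ (i := i)) (not_lt.2 h3)
  · intro i
    refine cut_of_subset hB ?_
    intro u hu huB w huw
    rcases hu with hu | hu
    · exact absurd hu huB
    · simp only [Set.mem_iUnion] at hu
      obtain ⟨j, hj, huj⟩ := hu
      rcases adj_mem huj (hX j huj) huw with h | h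
      · right
        simp only [Set.mem_iUnion]
        exact ⟨j, hj, h⟩
      · left
        exact high_subset hρ (hpar j) h

/-- many clean components -/
lemma chain_roots [Finite V] (hρ : Function.Injective ρ) {N : ℕ} (c : Fin (N + 1) → V)
    (hc : Function.Injective c) (hroot : ∀ i, high (meet G X) ρ (c i) = ∅)
    (hX : ∀ i, low (meet G X) ρ (c i) ⊆ X) : Chain G 0 N := by
  refine ⟨fun i => ⋃ j ∈ Set.Iic i, low (meet G X) ρ (c j), ?_, ?_⟩
  · rw [Fin.strictMono_iff_lt_succ]
    intro i
    refine Set.ssubset_iff_of_subset ?_ |>.2 ⟨c i.succ, ?_, ?_⟩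
    · refine Set.biUnion_subset_biUnion_left ?_
      exact Set.Iic_subset_Iic.2 (Fin.castSucc_lt_succ).le
    · simp only [Set.mem_iUnion]
      exact ⟨i.succ, Set.mem_Iic.2 le_rfl, mem_low_self _⟩
    · intro h
      simp only [Set.mem_iUnion] at h
      obtain ⟨j, hj, hcj⟩ := h
      by_cases hne : c i.succ = c j
      · have h2 := hc hne
        have h3 : j ≤ i.castSucc := hj
        rw [← h2] at h3
        exact absurd (Fin.castSucc_lt_succ (i := i)) (not_lt.2 h3)
      · obtain ⟨b, hb, -⟩ := exists_high hρ hcj hne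
        rw [hroot] at hb
        exact hb
  · intro i
    refine cut_of_subset (B := ∅) (by simp) ?_
    intro u hu _ w huw
    simp only [Set.mem_iUnion] at hu ⊢
    obtain ⟨j, hj, huj⟩ := hu
    rcases adj_mem huj (hX j huj) huw with h | h
    · exact ⟨j, hj, h⟩
    · rw [hroot] at h
      exact absurd h (Set.notMem_empty _)

/-- a long clean branch -/
lemma chain_branch [Finite V] (hρ : Function.Injective ρ) {k N m : ℕ}
    (hk : ∀ v, (high (meet G X) ρ v).ncard ≤ k) (f : ℕ → V)
    (hpar : ∀ j, j < m → Par (meet G X) ρ (f j) (f (j + 1)))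
    (hX : low (meet G X) ρ (f m) ⊆ X) (hm : (k + 1) * N ≤ m) : Chain G k N := by
  have hsub : ∀ d j, j + d ≤ m → low (meet G X) ρ (f j) ⊆ low (meet G X) ρ (f (j + d)) := by
    intro d
    induction d with
    | zero => intro j _; exact subset_rfl
    | succ d ih =>
      intro j hj
      exact (ih j (by omega)).trans (child_subset (hpar (j + d) (by omega)))
  have hgrow : ∀ d j, j + d ≤ m → (low (meet G X) ρ (f j)).ncard + d ≤
      (low (meet G X) ρ (f (j + d))).ncard := by
    intro d
    induction d with
    | zero => intro j _; exact le_rfl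
    | succ d ih =>
      intro j hj
      have h1 := ih j (by omega)
      have h2 : (low (meet G X) ρ (f (j + d))).ncard <
          (low (meet G X) ρ (f (j + (d + 1)))).ncard := by
        refine Set.ncard_lt_ncard ?_ (Set.toFinite _)
        refine Set.ssubset_iff_of_subset (hsub 1 (j + d) (by omega)) |>.2
          ⟨f (j + (d + 1)), mem_low_self _, ?_⟩
        exact not_mem_child (hpar (j + d) (by omega))
      omega
  refine chain_of_seq (t := k + 1) (m := m)
    (fun j => low (meet G X) ρ (f j) ∪ high (meet G X) ρ (f j)) ?_ ?_ ?_ hm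
  · intro j hj
    refine Set.union_subset ?_ ?_
    · exact (child_subset (hpar j hj)).trans Set.subset_union_left
    · refine (high_subset hρ (hpar j hj)).trans ?_
      refine Set.insert_subset (Or.inl (mem_low_self _)) Set.subset_union_right
  · intro j hj
    refine cut_of_subset (hk (f j)) ?_
    intro u hu huB w huw
    have hu1 : u ∈ low (meet G X) ρ (f j) := hu.resolve_right huB
    have h1 := hsub (m - j) j (by omega)
    rw [show j + (m - j) = m by omega] at h1
    exact adj_mem hu1 (hX (h1 hu1)) huw
  · intro j hj he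
    have h1 := hgrow (k + 1) j hj
    have h2 : (low (meet G X) ρ (f (j + (k + 1)))).ncard ≤
        (low (meet G X) ρ (f (j + (k + 1))) ∪ high (meet G X) ρ (f (j + (k + 1)))).ncard :=
      Set.ncard_le_ncard Set.subset_union_left (Set.toFinite _)
    have h3 := Set.ncard_union_le (low (meet G X) ρ (f j)) (high (meet G X) ρ (f j))
    have h4 := hk (f j)
    rw [← he] at h2
    omega

/-- a long branch with clean side branches -/
lemma chain_thread [Finite V] (hρ : Function.Injective ρ) {k N m : ℕ}
    (hk : ∀ v, (high (meet G X) ρ v).ncard ≤ k) (f : ℕ → V)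
    (hpar : ∀ j, j < m → Par (meet G X) ρ (f j) (f (j + 1)))
    (hX : low (meet G X) ρ (f m) \ low (meet G X) ρ (f 0) ⊆ X)
    (hm : (2 * k + 1) * N ≤ m) : Chain G (2 * k) N := by
  have hsub : ∀ d j, j + d ≤ m → low (meet G X) ρ (f j) ⊆ low (meet G X) ρ (f (j + d)) := by
    intro d
    induction d with
    | zero => intro j _; exact subset_rfl
    | succ d ih =>
      intro j hj
      exact (ih j (by omega)).trans (child_subset (hpar (j + d) (by omega)))
  have hsub0 : ∀ j, j ≤ m → low (meet G X) ρ (f 0) ⊆ low (meet G X) ρ (f j) := by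
    intro j hj
    have := hsub j 0 (by omega)
    rwa [zero_add] at this
  let E : ℕ → Set V := fun j => low (meet G X) ρ (f j) \ low (meet G X) ρ (f 0)
  have hgrow : ∀ d j, j + d ≤ m → (E j).ncard + d ≤ (E (j + d)).ncard := by
    intro d
    induction d with
    | zero => intro j _; exact le_rfl
    | succ d ih =>
      intro j hj
      have h1 := ih j (by omega)
      have h2 : (E (j + d)).ncard < (E (j + (d + 1))).ncard := by
        refine Set.ncard_lt_ncard ?_ (Set.toFinite _)
        refine Set.ssubset_iff_of_subset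
          (Set.sdiff_subset_sdiff_left (hsub 1 (j + d) (by omega))) |>.2
          ⟨f (j + (d + 1)), ⟨mem_low_self _, ?_⟩, ?_⟩
        · intro h3
          exact not_mem_child (hpar (j + d) (by omega)) (hsub0 (j + d) (by omega) h3)
        · intro h3
          exact not_mem_child (hpar (j + d) (by omega)) h3.1
      omega
  refine chain_of_seq (t := 2 * k + 1) (m := m)
    (fun j => E j ∪ (high (meet G X) ρ (f j) ∪ high (meet G X) ρ (f 0))) ?_ ?_ ?_ hm
  · intro j hj
    refine Set.union_subset ?_ (Set.union_subset ?_ ?_)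
    · exact (Set.sdiff_subset_sdiff_left (child_subset (hpar j hj))).trans Set.subset_union_left
    · refine (high_subset hρ (hpar j hj)).trans ?_
      refine Set.insert_subset (Or.inl ⟨mem_low_self _, ?_⟩) ?_
      · intro h3
        exact not_mem_child (hpar j hj) (hsub0 j hj.le h3)
      · exact Set.subset_union_left.trans Set.subset_union_right
    · exact Set.subset_union_right.trans Set.subset_union_right
  · intro j hj
    have hB : (high (meet G X) ρ (f j) ∪ high (meet G X) ρ (f 0)).ncard ≤ 2 * k := by
      have h1 := Set.ncard_union_le (high (meet G X) ρ (f j)) (high (meet G X) ρ (f 0))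
      have h2 := hk (f j)
      have h3 := hk (f 0)
      omega
    refine cut_of_subset hB ?_
    intro u hu huB w huw
    have hu1 : u ∈ E j := hu.resolve_right huB
    have h1 := hsub (m - j) j (by omega)
    rw [show j + (m - j) = m by omega] at h1
    have huX : u ∈ X := hX ⟨h1 hu1.1, hu1.2⟩
    rcases adj_mem hu1.1 huX huw with h2 | h2
    · by_cases hw0 : w ∈ low (meet G X) ρ (f 0)
      · exfalso
        have h3 : (meet G X).Adj w u := ⟨huw.symm, Or.inr huX⟩
        have h4 : ρ (f 0) < ρ u := by
          by_contra h5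
          exact hu1.2 (low_step hw0 h3 (not_lt.1 h5))
        exact huB (Or.inr ⟨h4, w, hw0, h3⟩)
      · exact Or.inl ⟨h2, hw0⟩
    · exact Or.inr (Or.inl h2)
  · intro j hj he
    have h1 := hgrow (2 * k + 1) j hj
    have h2 : (E (j + (2 * k + 1))).ncard ≤ (E (j + (2 * k + 1)) ∪
        (high (meet G X) ρ (f (j + (2 * k + 1))) ∪ high (meet G X) ρ (f 0))).ncard :=
      Set.ncard_le_ncard Set.subset_union_left (Set.toFinite _)
    have h3 := Set.ncard_union_le (E j)
      (high (meet G X) ρ (f j) ∪ high (meet G X) ρ (f 0))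
    have h4 := Set.ncard_union_le (high (meet G X) ρ (f j)) (high (meet G X) ρ (f 0))
    have h5 := hk (f j)
    have h6 := hk (f 0)
    rw [← he] at h2
    omega

end Pool.Agent.Helper79.TL
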