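import Pool.Agent.Helper79.TL.Thin

/-!
# TL: cycles and disjoint paths
-/

set_option autoImplicit false

namespace Pool.Agent.Helper79.TL

variable {V : Type}

/-- every point of a cycle has two neighbours on the cycle -/
lemma cycle_two {G : SimpleGraph V} {v : V} {c : G.Walk v v} (hc : c.IsCycle) {u : V}
    (hu : u ∈ c.support) : ∃ w w', w ≠ w' ∧ G.Adj u w ∧ G.Adj u w' ∧ w ∈ c.support ∧
      w' ∈ c.support := by
  have h1 := hc.ncard_neighborSet_toSubgraph_eq_two hu
  obtain ⟨w, w', hne, he⟩ := Set.ncard_eq_two.1 h1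
  have hw : w ∈ c.toSubgraph.neighborSet u := by
    rw [he]
    simp
  have hw' : w' ∈ c.toSubgraph.neighborSet u := by
    rw [he]
    simp
  exact ⟨w, w', hne, c.toSubgraph.adj_sub hw, c.toSubgraph.adj_sub hw',
    c.mem_verts_toSubgraph.1 (c.toSubgraph.edge_vert (c.toSubgraph.symm.symm _ _ hw)),
    c.mem_verts_toSubgraph.1 (c.toSubgraph.edge_vert (c.toSubgraph.symm.symm _ _ hw'))⟩

/-- different points of a cycle -/
lemma cycle_card {G : SimpleGraph V} {v : V} {c : G.Walk v v} (hc : c.IsCycle) {n : ℕ}
    (f : Fin n → V) (hf : Function.Injective f) (hm : ∀ i, f i ∈ c.support) : n ≤ c.length := by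
  classical
  have h1 : ∀ i, f i ∈ c.support.tail.toFinset := by
    intro i
    rw [List.mem_toFinset]
    rcases (c.mem_support_iff).1 (hm i) with h | h
    · rw [h]
      exact c.end_mem_tail_support hc.not_nil
    · exact h
  have h2 : (Finset.univ.image f).card ≤ c.support.tail.toFinset.card := by
    refine Finset.card_le_card ?_
    intro x hx
    obtain ⟨i, -, rfl⟩ := Finset.mem_image.1 hx
    exact h1 i
  rw [Finset.card_image_of_injective _ hf, Finset.card_univ, Fintype.card_fin] at h2
  have h3 := List.toFinset_card_le c.support.tail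
  have h4 : c.support.tail.length = c.length := by
    rw [List.length_tail, c.length_support]
    rfl
  omega

lemma Paths.anti [Finite V] {H H' : SimpleGraph V} (h : H ≤ H') (hP : Paths H') : Paths H :=
  ⟨hP.1.anti h, fun v => (Set.ncard_le_ncard (fun _ hw => h hw) (Set.toFinite _)).trans
    (hP.2 v)⟩

lemma Paths.induce [Finite V] {H : SimpleGraph V} (hP : Paths H) (s : Set V) :
    Paths (H.induce s) := by
  refine ⟨hP.1.induce s, fun v => ?_⟩
  rw [← Set.ncard_image_of_injective _ (Subtype.val_injective (p := fun x => x ∈ s))]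
  refine (Set.ncard_le_ncard ?_ (Set.toFinite _)).trans (hP.2 v.1)
  rintro _ ⟨w, hw, rfl⟩
  exact hw

end Pool.Agent.Helper79.TL
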