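import Mathlib

/-!
# TL: tree-like structures, definitions

`meet G X`: the edges of the graph `G` that meet the set `X`. `low H ρ v`, `high H ρ v`: for an elimination order `ρ`
the points reachable from `v` through points of rank at most `ρ v`, and their neighbours of higher rank. `TreeWidthLE k H`:
there is an elimination order of width at most `k`.
-/

set_option autoImplicit false

namespace Pool.Agent.Helper79.TL

variable {V : Type}

/-- The graph of the edges of `G` that meet `X`. -/
def meet (G : SimpleGraph V) (X : Set V) : SimpleGraph V where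
  Adj u v := G.Adj u v ∧ (u ∈ X ∨ v ∈ X)
  symm := ⟨fun _ _ h => ⟨h.1.symm, h.2.symm⟩⟩
  loopless := ⟨fun _ h => G.irrefl h.1⟩

/-- The points that can be reached from `v` through points of rank at most `ρ v`. -/
def low (H : SimpleGraph V) (ρ : V → ℕ) (v : V) : Set V :=
  {u | Relation.ReflTransGen (fun a b => H.Adj a b ∧ ρ b ≤ ρ v) v u}

/-- The neighbours of rank above `ρ v` of the points of `low H ρ v`. -/
def high (H : SimpleGraph V) (ρ : V → ℕ) (v : V) : Set V :=
  {w | ρ v < ρ w ∧ ∃ u ∈ low H ρ v, H.Adj u w}

/-- `H` has tree-width at most `k`: there is an elimination order `ρ` of width at most `k`. -/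
def TreeWidthLE (k : ℕ) (H : SimpleGraph V) : Prop :=
  ∃ ρ : V → ℕ, Function.Injective ρ ∧ ∀ v, (high H ρ v).ncard ≤ k

/-- At most `b` points of `U` have neighbours outside `U`. -/
def Cut (G : SimpleGraph V) (b : ℕ) (U : Set V) : Prop :=
  {u | u ∈ U ∧ ∃ w, w ∉ U ∧ G.Adj u w}.ncard ≤ b

/-- A chain of `N + 1` strictly increasing sets with at most `b` boundary points. -/
def Chain (G : SimpleGraph V) (b N : ℕ) : Prop :=
  ∃ U : Fin (N + 1) → Set V, StrictMono U ∧ ∀ i, Cut G b (U i)

end Pool.Agent.Helper79.TL
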