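import Pool.Agent.Helper79.TL.Gaif

/-!
# TL: tame and thin structures, definitions
-/

set_option autoImplicit false

namespace Pool.Agent.Helper79.TL

open FirstOrder FirstOrder.Language Pool.Agent.Helper32.Pump

/-- The average degree of `G` is at most `2 + 1 / C`. -/
def AvgDegLE {V : Type} (C : ℕ) (G : SimpleGraph V) : Prop :=
  2 * C * G.edgeSet.ncard ≤ (2 * C + 1) * Nat.card V

/-- `H` is a disjoint union of paths: there are no cycles and all degrees are at most 2. -/
def Paths {V : Type} (H : SimpleGraph V) : Prop :=
  H.IsAcyclic ∧ ∀ v, (H.neighborSet v).ncard ≤ 2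

/-- The graph `G` is `C`-thin:
the average degree is at most `2 + 1 / C`;
every cycle has length at least `C`;
for some set `X` that contains all but at most `|V| / C` points, the edges that meet `X` form
disjoint paths;
for some set `P` of at most `|V| ^ (1 / C)` points, all points outside `P` have degree at most 3 and
the deletion of `P` leaves disjoint paths. -/
def ThinGraph {V : Type} (C : ℕ) (G : SimpleGraph V) : Prop :=
  AvgDegLE C G ∧
    (∀ (v : V) (c : G.Walk v v), c.IsCycle → C ≤ c.length) ∧
    (∃ X : Set V, C * (Xᶜ).ncard ≤ Nat.card V ∧ Paths (meet G X)) ∧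
    ∃ P : Set V, P.ncard ^ C ≤ Nat.card V ∧ (∀ v, v ∉ P → (G.neighborSet v).ncard ≤ 3) ∧
      Paths (G.induce Pᶜ)

/-- The structure `A` has a chain of `C + 1` nested cuts of index at most `r`,
or a set `X` of at least `C * (b + 1)` elements, where `b` is the number of the elements outside `X`
with neighbours in `X`, such that the graph of the edges of the Gaifman graph that meet `X` has
tree-width at most `k` or at most `(1 + 1 / (2 * C)) * |X|` edges. -/
def Tame (L : FirstOrder.Language.{0, 0}) (k r C : ℕ) (A : Type) [L.Structure A] : Prop :=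
  HasCutChain L A r C ∨
    ∃ X : Set A, C * ((bdry (gaifman L A) X).ncard + 1) ≤ X.ncard ∧
      (TreeWidthLE k (meet (gaifman L A) X) ∨
        2 * C * (meet (gaifman L A) X).edgeSet.ncard ≤ (2 * C + 1) * X.ncard)

end Pool.Agent.Helper79.TL
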